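import Mathlib

/-!
# Squares in Dedekind domains with odd class number, and a lemma on groups
-/

set_option autoImplicit false

namespace Pool.Agent.H86.SQ

open IsDedekindDomain

/-- An ideal all of whose multiplicities are even is a square. -/
lemma exists_sq_ideal {R : Type*} [CommRing R] [IsDedekindDomain R] (I : Ideal R) (hI : I ≠ 0)
    (h : ∀ v : HeightOneSpectrum R,
      Even ((Associates.mk v.asIdeal).count (Associates.mk I).factors)) :
    ∃ J : Ideal R, J ^ 2 = I := by
  classical
  refine ⟨∏ᶠ v : HeightOneSpectrum R,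
    v.asIdeal ^ ((Associates.mk v.asIdeal).count (Associates.mk I).factors / 2), ?_⟩
  rw [finprod_pow]
  · conv_rhs => rw [← Ideal.finprod_heightOneSpectrum_factorization hI]
    refine finprod_congr fun v => ?_
    rw [HeightOneSpectrum.maxPowDividing, ← pow_mul, Nat.div_mul_cancel (h v).two_dvd]
  · refine (Ideal.finite_factors hI).subset ?_
    intro v hv
    rw [Function.mem_mulSupport] at hv
    rw [Set.mem_setOf_eq]
    rw [← Associates.count_ne_zero_iff_dvd hI v.irreducible]
    intro h0
    apply hv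
    rw [h0]
    simp

/-- In a Dedekind domain with odd class number an element with even divisor is a unit times a
square. -/
lemma exists_unit_mul_sq {R : Type*} [CommRing R] [IsDedekindDomain R] [Fintype (ClassGroup R)]
    (hodd : Odd (Fintype.card (ClassGroup R))) (x : R) (hx : x ≠ 0)
    (h : ∀ v : HeightOneSpectrum R, IsSquare (v.intValuation x)) :
    ∃ (u : Rˣ) (y : R), x = u * y ^ 2 := by
  have hI : Ideal.span {x} ≠ (0 : Ideal R) := by
    simpa using hx
  obtain ⟨J, hJ⟩ := exists_sq_ideal (Ideal.span {x}) hI (fun v => by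
    obtain ⟨γ, hγ⟩ := h v
    rw [v.intValuation_if_neg hx] at hγ
    have hγ0 : γ ≠ 0 := by
      rintro rfl
      rw [mul_zero] at hγ
      exact WithZero.exp_ne_zero hγ
    rw [← WithZero.exp_log hγ0, ← WithZero.exp_add, WithZero.exp_inj] at hγ
    have h2 : ((Associates.mk v.asIdeal).count (Associates.mk (Ideal.span {x})).factors : ℤ) =
        (-WithZero.log γ) + (-WithZero.log γ) := by linarith
    have h3 : Even ((Associates.mk v.asIdeal).count
        (Associates.mk (Ideal.span {x})).factors : ℤ) := ⟨_, h2⟩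
    exact_mod_cast h3)
  have hP : J.IsPrincipal := by
    apply Ideal.IsPrincipal.of_isPrincipal_pow_of_coprime (n := 2)
    · exact (Nat.coprime_two_left).2 hodd
    · rw [hJ]; exact ⟨⟨x, rfl⟩⟩
  obtain ⟨y, hy⟩ := hP.principal
  have h4 : Ideal.span {y ^ 2} = Ideal.span {x} := by
    rw [← Ideal.span_singleton_pow, ← hJ, hy]
  rw [Ideal.span_singleton_eq_span_singleton] at h4
  obtain ⟨u, hu⟩ := h4
  exact ⟨u, y, by rw [← hu]; ring⟩

/-- A group with central kernel onto a group `Q` with `Q / Q²` of order at most two, in which the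
squares are central, is commutative. -/
lemma comm_of_rank {G Q : Type*} [Group G] [Group Q] (π : G →* Q) (hπ : Function.Surjective π)
    (hker : ∀ z, π z = 1 → ∀ g, z * g = g * z) (hsq : ∀ f k : G, f * k ^ 2 = k ^ 2 * f)
    (σ₀ : Q) (h0 : ∀ σ : Q, ∃ ρ : Q, σ = ρ ^ 2 ∨ σ = σ₀ * ρ ^ 2) (f g : G) : f * g = g * f := by
  obtain ⟨h, hh⟩ := hπ σ₀
  -- every element is a central element or `h` times a central element
  have key : ∀ f : G, ∃ z : G, (∀ g, z * g = g * z) ∧ (f = z ∨ f = h * z) := by
    intro f
    obtain ⟨ρ, hρ⟩ := h0 (π f)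
    obtain ⟨k, hk⟩ := hπ ρ
    rcases hρ with hρ | hρ
    · refine ⟨k ^ 2 * ((k ^ 2)⁻¹ * f), ?_, Or.inl (by group)⟩
      have h1 : π ((k ^ 2)⁻¹ * f) = 1 := by
        rw [map_mul, map_inv, map_pow, hk, hρ, inv_mul_cancel]
      intro g
      rw [mul_assoc, hker _ h1 g, ← mul_assoc, ← hsq g k, mul_assoc]
    · refine ⟨k ^ 2 * ((h * k ^ 2)⁻¹ * f), ?_, Or.inr (by group)⟩
      have h1 : π ((h * k ^ 2)⁻¹ * f) = 1 := by
        rw [map_mul, map_inv, map_mul, map_pow, hk, hh, hρ, inv_mul_cancel]
      intro g
      rw [mul_assoc, hker _ h1 g, ← mul_assoc, ← hsq g k, mul_assoc]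
  obtain ⟨z, hz, hf⟩ := key f
  obtain ⟨w, hw, hg⟩ := key g
  rcases hf with rfl | rfl
  · exact hz g
  · rcases hg with rfl | rfl
    · exact (hw _).symm
    · calc h * z * (h * w) = h * (z * h) * w := by group
        _ = h * (h * z) * w := by rw [hz h]
        _ = h * h * (z * w) := by group
        _ = h * h * (w * z) := by rw [hz w]
        _ = h * (h * w) * z := by group
        _ = h * (w * h) * z := by rw [hw h]
        _ = h * w * (h * z) := by group

end Pool.Agent.H86.SQ
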