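import Pool.Agent.H86.SQ.Kummer

/-!
# Units of absolute value one above the second place
-/

set_option autoImplicit false
set_option linter.unusedSectionVars false

namespace Pool.Agent.H86.SQ

open IntermediateField NumberField IsDedekindDomain

/-- `K` is a real quadratic field with the real embeddings `σ₁ ≠ σ₂`, all embeddings of `H` above
`σ₁` are real, the automorphism `τ` of `H` over `F` is the complex conjugation in all embeddings
of `H` above `σ₂`, and `F` is the field of the invariants of `τ`. -/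
structure Setting {K F H : Type} [Field K] [NumberField K] [Field F] [NumberField F] [Field H]
    [NumberField H] [Algebra K H] [Algebra F H] (σ₁ σ₂ : K →+* ℝ) (τ : H ≃ₐ[F] H) : Prop where
  degree : Module.finrank ℚ K = 2
  ne : σ₁ ≠ σ₂
  real : ∀ g : H →+* ℂ, (∀ x : K, g (algebraMap K H x) = (σ₁ x : ℂ)) →
    ∀ x : H, (starRingEnd ℂ) (g x) = g x
  conj : ∀ g : H →+* ℂ, (∀ x : K, g (algebraMap K H x) = (σ₂ x : ℂ)) →
    ∀ x : H, (starRingEnd ℂ) (g x) = g (τ x)
  fixed : ∀ x : H, τ x = x → ∃ y : F, algebraMap F H y = x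

/-- `u` is positive in the embeddings above `σ₁` and has absolute value one in the embeddings
above `σ₂`. -/
structure Good {K H : Type} [Field K] [Field H] [Algebra K H] (σ₁ σ₂ : K →+* ℝ) (u : H) :
    Prop where
  pos : ∀ g : H →+* ℂ, (∀ x : K, g (algebraMap K H x) = (σ₁ x : ℂ)) →
    ∃ r : ℝ, 0 < r ∧ g u = r
  circ : ∀ g : H →+* ℂ, (∀ x : K, g (algebraMap K H x) = (σ₂ x : ℂ)) → ‖g u‖ = 1

/-- The prime `p` of `F` is ramified in `H`. -/
def RamifiedIn {F : Type} (H : Type) [Field F] [NumberField F] [Field H] [NumberField H]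
    [Algebra F H] (p : HeightOneSpectrum (𝓞 F)) : Prop :=
  ∀ P : Ideal (𝓞 H), P.IsPrime → P.LiesOver p.asIdeal →
    p.asIdeal.map (algebraMap (𝓞 F) (𝓞 H)) ≤ P ^ 2

variable {K F H : Type} [Field K] [NumberField K] [Field F] [NumberField F] [Field H]
  [NumberField H] [Algebra K F] [Algebra F H] [Algebra K H] [IsScalarTower K F H]
  {σ₁ σ₂ : K →+* ℝ} {τ : H ≃ₐ[F] H}

omit [Algebra K F] [IsScalarTower K F H] in
lemma Setting.cases (hS : Setting σ₁ σ₂ τ) (g : H →+* ℂ) :
    (∀ x : K, g (algebraMap K H x) = (σ₁ x : ℂ)) ∨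
      (∀ x : K, g (algebraMap K H x) = (σ₂ x : ℂ)) := by
  classical
  let φ : K →+* ℂ := g.comp (algebraMap K H)
  let a : K →+* ℂ := Complex.ofRealHom.comp σ₁
  let b : K →+* ℂ := Complex.ofRealHom.comp σ₂
  have hab : a ≠ b := by
    intro h
    apply hS.ne
    ext x
    have h1 := congrArg (fun f : K →+* ℂ => f x) h
    simpa [a, b] using h1
  have hcard : ({a, b} : Finset (K →+* ℂ)).card = Fintype.card (K →+* ℂ) := by
    rw [Finset.card_pair hab, NumberField.Embeddings.card K ℂ, hS.degree]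
  have huniv := Finset.eq_univ_of_card _ hcard
  have hφ : φ ∈ ({a, b} : Finset (K →+* ℂ)) := by rw [huniv]; exact Finset.mem_univ _
  rw [Finset.mem_insert, Finset.mem_singleton] at hφ
  rcases hφ with h | h
  · left; intro x; exact congrArg (fun f : K →+* ℂ => f x) h
  · right; intro x; exact congrArg (fun f : K →+* ℂ => f x) h

omit [NumberField K] [NumberField H] in
lemma Good.map {u : H} (hu : Good σ₁ σ₂ u) (φ : H ≃ₐ[K] H) : Good σ₁ σ₂ (φ u) := by
  constructor
  · intro g hg
    exact hu.pos (g.comp (φ : H →+* H)) (fun x => by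
      change g (φ (algebraMap K H x)) = _
      rw [AlgEquiv.commutes, hg])
  · intro g hg
    exact hu.circ (g.comp (φ : H →+* H)) (fun x => by
      change g (φ (algebraMap K H x)) = _
      rw [AlgEquiv.commutes, hg])

lemma exists_embedding (σ : K →+* ℝ) : ∃ g : H →+* ℂ, ∀ x : K, g (algebraMap K H x) = (σ x : ℂ) :=
  ⟨ComplexEmbedding.lift H (Complex.ofRealHom.comp σ), fun x => by
    rw [ComplexEmbedding.lift_algebraMap_apply]; rfl⟩

omit [Algebra K F] [IsScalarTower K F H] in
lemma mul_tau (hS : Setting σ₁ σ₂ τ) {u : H} (hu : Good σ₁ σ₂ u) : u * τ u = 1 := by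
  obtain ⟨g, hg⟩ := exists_embedding (H := H) σ₂
  apply g.injective
  rw [map_mul, ← hS.conj g hg, Complex.mul_conj, Complex.normSq_eq_norm_sq, hu.circ g hg, map_one]
  norm_num

omit [Algebra K F] [IsScalarTower K F H] in
lemma exists_F (hS : Setting σ₁ σ₂ τ) {u : H} (hu : Good σ₁ σ₂ u) :
    ∃ b : F, algebraMap F H b = 2 + u + u⁻¹ := by
  have h1 := mul_tau hS hu
  have h2 : τ u = u⁻¹ := eq_inv_of_mul_eq_one_right h1
  apply hS.fixed
  rw [map_add, map_add, map_inv₀, h2, inv_inv, map_ofNat]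
  ring

omit [Algebra K F] [IsScalarTower K F H] in
lemma one_add_ne {u : H} (hu : Good σ₁ σ₂ u) : u ≠ 0 ∧ 1 + u ≠ 0 := by
  obtain ⟨g, hg⟩ := exists_embedding (H := H) σ₁
  obtain ⟨r, hr, h⟩ := hu.pos g hg
  constructor
  · rintro rfl
    rw [map_zero] at h
    exact hr.ne' (by exact_mod_cast h.symm)
  · intro h0
    have h1 : g (1 + u) = ((1 + r : ℝ) : ℂ) := by rw [map_add, map_one, h]; push_cast; ring
    rw [h0, map_zero] at h1
    have h2 : (0 : ℝ) = 1 + r := by exact_mod_cast h1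
    linarith

lemma identity {u : H} (hu0 : u ≠ 0) : (2 + u + u⁻¹) * u = (1 + u) ^ 2 := by
  field_simp
  ring

omit [Algebra K F] [IsScalarTower K F H] in
/-- The element `b = 2 + u + u⁻¹` of `F` is totally positive. -/
lemma totally_positive (hS : Setting σ₁ σ₂ τ) {u : H} (hu : Good σ₁ σ₂ u) (b : F)
    (hb : algebraMap F H b = 2 + u + u⁻¹) (f : F →+* ℝ) : 0 < f b := by
  obtain ⟨hu0, hu1⟩ := one_add_ne hu
  let g : H →+* ℂ := ComplexEmbedding.lift H (Complex.ofRealHom.comp f)
  have hgb : g (algebraMap F H b) = (f b : ℂ) := by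
    rw [ComplexEmbedding.lift_algebraMap_apply]; rfl
  have hb0 : b ≠ 0 := by
    rintro rfl
    rw [map_zero] at hb
    have h1 := identity hu0
    rw [← hb, zero_mul] at h1
    exact hu1 (by simpa using h1.symm)
  have hfb : f b ≠ 0 := (map_ne_zero f).2 hb0
  rcases hS.cases g with hg | hg
  · obtain ⟨r, hr, h⟩ := hu.pos g hg
    rw [hb, map_add, map_add, map_inv₀, h, map_ofNat] at hgb
    have h2 : f b = 2 + r + r⁻¹ := by
      have h3 : ((2 + r + r⁻¹ : ℝ) : ℂ) = (f b : ℂ) := by rw [← hgb]; push_cast; ring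
      exact_mod_cast h3.symm
    rw [h2]; positivity
  · have hn := hu.circ g hg
    have h1 : g (u⁻¹) = (starRingEnd ℂ) (g u) := by
      rw [map_inv₀]
      rw [Complex.inv_def, Complex.normSq_eq_norm_sq, hn]
      norm_num
    have hre : (f b : ℂ) = ((2 + 2 * (g u).re : ℝ) : ℂ) := by
      rw [← hgb, hb, map_add, map_add, h1, map_ofNat, add_assoc, Complex.add_conj]
      push_cast; ring
    have hre' : f b = 2 + 2 * (g u).re := by exact_mod_cast hre
    have h2 : |(g u).re| ≤ 1 := by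
      have := Complex.abs_re_le_norm (g u)
      rwa [hn] at this
    have h3 : 0 ≤ f b := by
      rw [hre']
      have := (abs_le.1 h2).1
      linarith
    exact lt_of_le_of_ne h3 (Ne.symm hfb)

/-- A unit has valuation one. -/
lemma valuation_unit (P : HeightOneSpectrum (𝓞 H)) (u : (𝓞 H)ˣ) :
    P.valuation H ((u : 𝓞 H) : H) = 1 := by
  have h1 : P.valuation H ((u : 𝓞 H) : H) * P.valuation H (((u⁻¹ : (𝓞 H)ˣ) : 𝓞 H) : H) = 1 := by
    rw [← map_mul, ← map_one (P.valuation H)]
    congr 1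
    rw [← map_mul (algebraMap (𝓞 H) H), Units.mul_inv, map_one]
  have h2 : P.valuation H ((u : 𝓞 H) : H) ≤ 1 := P.valuation_le_one _
  have h3 : P.valuation H (((u⁻¹ : (𝓞 H)ˣ) : 𝓞 H) : H) ≤ 1 := P.valuation_le_one _
  refine le_antisymm h2 ?_
  calc (1 : WithZero (Multiplicative ℤ)) = P.valuation H ((u : 𝓞 H) : H) *
        P.valuation H (((u⁻¹ : (𝓞 H)ˣ) : 𝓞 H) : H) := h1.symm
    _ ≤ P.valuation H ((u : 𝓞 H) : H) * 1 := by gcongr
    _ = _ := mul_one _

/-- The valuation of `b = 2 + u + u⁻¹` is even at the primes which are not ramified in `H`. -/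
lemma even_valuation (u : (𝓞 H)ˣ) (b : F)
    (hb : algebraMap F H b = 2 + ((u : 𝓞 H) : H) + ((u : 𝓞 H) : H)⁻¹)
    (p : HeightOneSpectrum (𝓞 F)) (hp : ¬ RamifiedIn H p) : IsSquare (p.valuation F b) := by
  unfold RamifiedIn at hp
  push Not at hp
  obtain ⟨P, hP, hover, hnot⟩ := hp
  have hPbot : P ≠ ⊥ := by
    rintro rfl
    apply p.ne_bot
    rw [hover.over, Ideal.under_def]
    exact Ideal.comap_bot_of_injective _ (FaithfulSMul.algebraMap_injective (𝓞 F) (𝓞 H))
  let w : HeightOneSpectrum (𝓞 H) := ⟨P, hP, hPbot⟩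
  have hw : w.asIdeal.LiesOver p.asIdeal := hover
  have he : p.asIdeal.ramificationIdx' w.asIdeal = 1 := by
    refine Ideal.ramificationIdx'_spec ?_ hnot
    rw [pow_one, Ideal.map_le_iff_le_comap]
    exact hover.over.le
  have h1 := HeightOneSpectrum.valuation_liesOver (K := F) H p w b
  rw [he, pow_one] at h1
  rw [h1, hb]
  set v : H := ((u : 𝓞 H) : H) with hv
  have hv0 : v ≠ 0 := by
    intro h0
    have h2 := valuation_unit w u
    rw [← hv, h0, map_zero] at h2
    exact zero_ne_one h2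
  have h3 : (2 + v + v⁻¹) = (1 + v) ^ 2 * v⁻¹ := by
    field_simp
    ring
  rw [h3, map_mul, map_pow, map_inv₀, valuation_unit, inv_one, mul_one]
  exact ⟨_, pow_two _⟩

end Pool.Agent.H86.SQ
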