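import Pool.Agent.H86.SQ.Alg

/-!
# Quadratic extensions of an abelian extension which are abelian over the base
-/

set_option autoImplicit false

namespace Pool.Agent.H86.SQ

open IntermediateField

/-- Two automorphisms which agree on `H` and on a generator are equal. -/
lemma equiv_ext {K H L : Type*} [Field K] [Field H] [Field L] [Algebra K H] [Algebra H L]
    [Algebra K L] [IsScalarTower K H L] (t : L) (hgen : adjoin H {t} = ⊤) (f g : L ≃ₐ[K] L)
    (hH : ∀ x : H, f (algebraMap H L x) = g (algebraMap H L x)) (ht : f t = g t) : f = g := by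
  ext x
  have hx : x ∈ adjoin H {t} := by rw [hgen]; exact mem_top
  refine adjoin_induction (F := H) (s := {t}) (p := fun x _ => f x = g x) ?_ ?_ ?_ ?_ ?_ hx
  · rintro y rfl; exact ht
  · intro y; exact hH y
  · intro x y _ _ h1 h2; rw [map_add, map_add, h1, h2]
  · intro x _ h1; rw [map_inv₀, map_inv₀, h1]
  · intro x y _ _ h1 h2; rw [map_mul, map_mul, h1, h2]

/-- Generators. -/
lemma adjoin_top {H L : Type*} [Field H] [Field L] [Algebra H L] (s t : L)
    (hgen : adjoin H {s} = ⊤) (a : H) (h : s = algebraMap H L a / t) : adjoin H {t} = ⊤ := by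
  rw [eq_top_iff, ← hgen, adjoin_le_iff, Set.singleton_subset_iff, h]
  exact div_mem (IntermediateField.algebraMap_mem _ _) (mem_adjoin_simple_self H t)

/-- `H(√b) / K` is normal if `H / K` is normal and `b g(b)` is a square for all `g`. -/
lemma normal_of_sqrt {K H L : Type*} [Field K] [Field H] [Field L] [Algebra K H] [Algebra H L]
    [Algebra K L] [IsScalarTower K H L] [Normal K H] (b : H) (hb : b ≠ 0) (t : L)
    (ht : t ^ 2 = algebraMap H L b) (hgen : adjoin H {t} = ⊤)
    (h : ∀ g : H ≃ₐ[K] H, IsSquare (b * g b)) : Normal K L := by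
  have hint : IsIntegral H t := by
    refine IsIntegral.of_pow (n := 2) (by norm_num) ?_
    rw [ht]; exact isIntegral_algebraMap
  have halg : Algebra.IsAlgebraic H L := by
    have h1 : Algebra.IsAlgebraic H (⊤ : IntermediateField H L) := by
      rw [← hgen]
      exact isAlgebraic_adjoin_simple hint
    exact (IntermediateField.topEquiv (F := H) (E := L)).isAlgebraic
  have halg' : Algebra.IsAlgebraic K L := Algebra.IsAlgebraic.trans K H L
  have ht0 : t ≠ 0 := by
    rintro rfl
    apply hb
    have : algebraMap H L b = 0 := by rw [← ht]; ring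
    exact (map_eq_zero _).1 this
  let Ω := AlgebraicClosure L
  have : Algebra.IsAlgebraic K Ω := Algebra.IsAlgebraic.trans K L Ω
  have : IsAlgClosure K Ω := ⟨inferInstance, inferInstance⟩
  have : Normal K Ω := IsAlgClosure.normal K Ω
  have : IsScalarTower K H Ω := IsScalarTower.of_algebraMap_eq (fun x => by
    rw [IsScalarTower.algebraMap_apply K L Ω, IsScalarTower.algebraMap_apply K H L,
      ← IsScalarTower.algebraMap_apply H L Ω])
  let i : L →ₐ[K] Ω := IsScalarTower.toAlgHom K L Ω
  have hi : ∀ x, i x = algebraMap L Ω x := fun x => rfl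
  have hN : Normal K i.fieldRange := by
    rw [normal_iff_forall_map_le']
    rintro σ _ ⟨_, ⟨x, rfl⟩, rfl⟩
    change σ (i x) ∈ i.fieldRange
    have hx : x ∈ adjoin H {t} := by rw [hgen]; exact mem_top
    set g := AlgEquiv.restrictNormal σ H with hg
    have hgc : ∀ y : H, σ (i (algebraMap H L y)) = i (algebraMap H L (g y)) := by
      intro y
      rw [hi, hi, ← IsScalarTower.algebraMap_apply H L Ω, ← IsScalarTower.algebraMap_apply H L Ω]
      exact (AlgEquiv.restrictNormal_commutes σ H y).symm
    refine adjoin_induction (F := H) (s := {t}) (p := fun x _ => σ (i x) ∈ i.fieldRange)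
      ?_ ?_ ?_ ?_ ?_ hx
    · rintro y rfl
      obtain ⟨c, hc⟩ := h g
      have h1 : (σ (i y)) ^ 2 = (i (algebraMap H L c / y)) ^ 2 := by
        rw [← map_pow, ← map_pow, ht, hgc, ← map_pow]
        congr 1
        rw [div_pow, ht, eq_div_iff (by
          intro h0; exact hb ((map_eq_zero _).1 h0)), ← map_pow, ← map_mul]
        congr 1
        rw [pow_two, ← hc]; ring
      rcases sq_eq_sq_iff_eq_or_eq_neg.1 h1 with h2 | h2
      · rw [h2]; exact ⟨_, rfl⟩
      · rw [h2, ← map_neg]; exact ⟨_, rfl⟩
    · intro y; rw [hgc]; exact ⟨_, rfl⟩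
    · intro x y _ _ h1 h2; rw [map_add, map_add]; exact add_mem h1 h2
    · intro x _ h1; rw [map_inv₀, map_inv₀]; exact inv_mem h1
    · intro x y _ _ h1 h2; rw [map_mul, map_mul]; exact mul_mem h1 h2
  have e : L ≃ₐ[K] i.fieldRange := AlgEquiv.ofInjectiveField i
  exact Normal.of_algEquiv e.symm

/-- The case of a square root of an element of the base. -/
lemma comm_of_base {K H L : Type*} [Field K] [Field H] [Field L] [Algebra K H] [Algebra H L]
    [Algebra K L] [IsScalarTower K H L] [Normal K H] (hcomm : ∀ f g : H ≃ₐ[K] H, f * g = g * f)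
    (k : K) (t : L) (ht : t ^ 2 = algebraMap K L k) (hgen : adjoin H {t} = ⊤)
    (f g : L ≃ₐ[K] L) : f * g = g * f := by
  have hs : ∀ f : L ≃ₐ[K] L, f t = t ∨ f t = -t := by
    intro f
    apply sq_eq_sq_iff_eq_or_eq_neg.1
    rw [← map_pow, ht, AlgEquiv.commutes]
  refine equiv_ext (H := H) t hgen _ _ (fun x => ?_) ?_
  · have h1 := congrArg (fun e : H ≃ₐ[K] H => algebraMap H L (e x))
      (hcomm (f.restrictNormal H) (g.restrictNormal H))
    simp only [AlgEquiv.mul_apply] at h1 ⊢
    rw [AlgEquiv.restrictNormal_commutes, AlgEquiv.restrictNormal_commutes,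
      AlgEquiv.restrictNormal_commutes, AlgEquiv.restrictNormal_commutes] at h1
    exact h1
  · simp only [AlgEquiv.mul_apply]
    rcases hs f with hf | hf <;> rcases hs g with hg | hg <;> simp [hf, hg]

/-- The case of a square root of an element `b` of a subfield `F` such that `b σ(b)` is a square
in `F` for all `σ`, if `Gal(F / K)` has at most one subgroup of index two. -/
lemma comm_of_sqrt {K F H L : Type*} [Field K] [Field F] [Field H] [Field L] [Algebra K F]
    [Algebra F H] [Algebra K H] [Algebra F L] [Algebra H L] [Algebra K L] [IsScalarTower K F H]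
    [IsScalarTower K H L] [IsScalarTower F H L] [IsScalarTower K F L] [Normal K F] [Normal K H]
    [Normal K L] (hcomm : ∀ f g : H ≃ₐ[K] H, f * g = g * f) (b : F) (hb : b ≠ 0) (t : L)
    (ht : t ^ 2 = algebraMap F L b) (hgen : adjoin H {t} = ⊤)
    (h : ∀ σ : F ≃ₐ[K] F, IsSquare (b * σ b)) (σ₀ : F ≃ₐ[K] F)
    (h0 : ∀ σ : F ≃ₐ[K] F, ∃ ρ, σ = ρ ^ 2 ∨ σ = σ₀ * ρ ^ 2) (f g : L ≃ₐ[K] L) :
    f * g = g * f := by
  have ht0 : t ≠ 0 := by
    rintro rfl
    apply hb
    have : algebraMap F L b = 0 := by rw [← ht]; ring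
    exact (map_eq_zero _).1 this
  have hH : ∀ (f g : L ≃ₐ[K] L) (x : H),
      (f * g) (algebraMap H L x) = (g * f) (algebraMap H L x) := by
    intro f g x
    have h1 := congrArg (fun e : H ≃ₐ[K] H => algebraMap H L (e x))
      (hcomm (f.restrictNormal H) (g.restrictNormal H))
    simp only [AlgEquiv.mul_apply] at h1 ⊢
    rw [AlgEquiv.restrictNormal_commutes, AlgEquiv.restrictNormal_commutes,
      AlgEquiv.restrictNormal_commutes, AlgEquiv.restrictNormal_commutes] at h1
    exact h1
  -- the elements `f t * t`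
  have hA : ∀ f : L ≃ₐ[K] L, ∃ m : F, f t * t = algebraMap F L m := by
    intro f
    obtain ⟨c, hc⟩ := h (f.restrictNormal F)
    have h1 : (f t * t) ^ 2 = (algebraMap F L c) ^ 2 := by
      rw [mul_pow, ← map_pow, ht, ← AlgEquiv.restrictNormal_commutes f F b, ← map_mul, ← map_pow]
      congr 1
      rw [pow_two, ← hc]; ring
    rcases sq_eq_sq_iff_eq_or_eq_neg.1 h1 with h2 | h2
    · exact ⟨c, h2⟩
    · exact ⟨-c, by rw [h2, map_neg]⟩
  -- elements which fix `F`
  have hker' : ∀ z : L ≃ₐ[K] L, (∀ x : F, z (algebraMap F L x) = algebraMap F L x) →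
      (z t = t ∨ z t = -t) ∧ ∀ g, z * g = g * z := by
    intro z hz
    have hzt : z t = t ∨ z t = -t := by
      apply sq_eq_sq_iff_eq_or_eq_neg.1
      rw [← map_pow, ht, hz]
    refine ⟨hzt, fun g => equiv_ext (H := H) t hgen _ _ (hH z g) ?_⟩
    obtain ⟨m, hm⟩ := hA g
    have hg : g t = algebraMap F L m / t := by rw [eq_div_iff ht0, hm]
    simp only [AlgEquiv.mul_apply]
    rw [hg, map_div₀, hz]
    rcases hzt with h1 | h1
    · rw [h1, hg]
    · rw [h1, map_neg, hg, div_neg]
  have hker : ∀ z : L ≃ₐ[K] L, AlgEquiv.restrictNormalHom F z = 1 →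
      (z t = t ∨ z t = -t) ∧ ∀ g, z * g = g * z := by
    intro z hz
    refine hker' z (fun x => ?_)
    rw [← AlgEquiv.restrictNormal_commutes z F x]
    have h1 : z.restrictNormal F = 1 := hz
    rw [h1]; rfl
  have hsq : ∀ f k : L ≃ₐ[K] L, f * k ^ 2 = k ^ 2 * f := by
    intro f k
    set z := (k * f)⁻¹ * (f * k) with hz
    have hfk : f * k = k * f * z := by rw [hz]; group
    have hzH : ∀ x : H, z (algebraMap H L x) = algebraMap H L x := by
      intro x
      have h1 := hH f k x
      have h2 : (k * f) (z (algebraMap H L x)) = (k * f) (algebraMap H L x) := by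
        rw [← AlgEquiv.mul_apply, ← hfk, h1]
      exact (k * f).injective h2
    have hzF : ∀ x : F, z (algebraMap F L x) = algebraMap F L x := by
      intro x
      rw [IsScalarTower.algebraMap_apply F H L, hzH]
    obtain ⟨hzt, hzc⟩ := hker' z hzF
    have hz2 : z * z = 1 := by
      refine equiv_ext (H := H) t hgen _ _ (fun x => ?_) ?_
      · rw [AlgEquiv.mul_apply, hzH, hzH]; rfl
      · rw [AlgEquiv.mul_apply, AlgEquiv.one_apply]
        rcases hzt with h1 | h1 <;> simp [h1]
    calc f * k ^ 2 = f * k * k := by rw [pow_two, mul_assoc]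
      _ = k * f * z * k := by rw [hfk]
      _ = k * f * (z * k) := by group
      _ = k * f * (k * z) := by rw [hzc]
      _ = k * (f * k) * z := by group
      _ = k * (k * f * z) * z := by rw [hfk]
      _ = k ^ 2 * f * (z * z) := by rw [pow_two]; simp only [mul_assoc]
      _ = k ^ 2 * f := by rw [hz2, mul_one]
  exact comm_of_rank (AlgEquiv.restrictNormalHom F) (AlgEquiv.restrictNormalHom_surjective L)
    (fun z hz => (hker z hz).2) hsq σ₀ h0 f g

end Pool.Agent.H86.SQ
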