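import Pool.Agent.H86.SQ.Arith

/-!
# The square root condition
-/

set_option autoImplicit false
set_option linter.unusedSectionVars false

namespace Pool.Agent.H86.SQ

open IntermediateField NumberField IsDedekindDomain

/-- The narrow class number of `F` is odd: the class number is odd and the totally positive units
are squares. -/
structure NarrowClassNumberOdd (F : Type) [Field F] [NumberField F] : Prop where
  classNumber : Odd (NumberField.classNumber F)
  units : ∀ u : (𝓞 F)ˣ, (∀ f : F →+* ℝ, 0 < f ((u : 𝓞 F) : F)) → IsSquare u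

/-- The extensions `H(√u) / K` are abelian. -/
def AbelianRoot (K : Type) {H : Type} [Field K] [Field H] [Algebra K H] (u : H) : Prop :=
  ∀ (L : Type) [Field L] [Algebra K L] [Algebra H L] [IsScalarTower K H L] (s : L),
    s ^ 2 = algebraMap H L u → adjoin H {s} = ⊤ → IsAbelianGalois K L

variable {K F H : Type} [Field K] [NumberField K] [Field F] [NumberField F] [Field H]
  [NumberField H] [Algebra K F] [Algebra F H] [Algebra K H] [IsScalarTower K F H]
  {σ₁ σ₂ : K →+* ℝ} {τ : H ≃ₐ[F] H}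

/-- If the narrow class number is odd, a totally positive element with even divisor is a
square. -/
lemma isSquare_of (hN : NarrowClassNumberOdd F) (X : 𝓞 F) (hX : X ≠ 0)
    (hpos : ∀ f : F →+* ℝ, 0 < f (X : F))
    (hv : ∀ p : HeightOneSpectrum (𝓞 F), IsSquare (p.valuation F (X : F))) :
    IsSquare (X : F) := by
  obtain ⟨u, y, hy⟩ := exists_unit_mul_sq (R := 𝓞 F) hN.classNumber X hX (fun p => by
    rw [← HeightOneSpectrum.valuation_of_algebraMap (K := F)]; exact hv p)
  have hy' : (X : F) = ((u : 𝓞 F) : F) * (y : F) ^ 2 := by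
    rw [hy]; push_cast; rfl
  obtain ⟨w, hw⟩ := hN.units u (fun f => by
    have h1 := hpos f
    rw [hy', map_mul, map_pow] at h1
    by_contra hneg
    push Not at hneg
    have h2 : f ((u : 𝓞 F) : F) * (f (y : F)) ^ 2 ≤ 0 :=
      mul_nonpos_of_nonpos_of_nonneg hneg (sq_nonneg _)
    linarith)
  refine ⟨((w : 𝓞 F) : F) * (y : F), ?_⟩
  rw [hy', hw]
  push_cast
  ring

/-- Totally positive elements with even divisor are squares: the narrow class number is odd. -/
def EvenSquares (F : Type) [Field F] [NumberField F] : Prop :=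
  ∀ x : F, x ≠ 0 → (∀ f : F →+* ℝ, 0 < f x) →
    (∀ p : HeightOneSpectrum (𝓞 F), IsSquare (p.valuation F x)) → IsSquare x

lemma NarrowClassNumberOdd.evenSquares {F : Type} [Field F] [NumberField F]
    (h : NarrowClassNumberOdd F) : EvenSquares F := by
  intro x hx hpos hv
  obtain ⟨a, b, hb, rfl⟩ := IsFractionRing.div_surjective (A := 𝓞 F) x
  have hb0 : (b : F) ≠ 0 := by
    have := nonZeroDivisors.ne_zero hb
    exact_mod_cast this
  have ha0 : (a : F) ≠ 0 := by
    intro h0
    exact hx (by rw [show (algebraMap (𝓞 F) F) a = 0 from h0, zero_div])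
  have h1 : (((a * b : 𝓞 F)) : F) = (a : F) / (b : F) * (b : F) ^ 2 := by
    rw [show ((a * b : 𝓞 F) : F) = (a : F) * (b : F) from map_mul (algebraMap (𝓞 F) F) a b]
    field_simp
  have h2 : IsSquare ((a * b : 𝓞 F) : F) := by
    refine isSquare_of h (a * b) ?_ (fun f => ?_) (fun p => ?_)
    · intro h0
      rw [h0] at h1
      have h3 : (a : F) / (b : F) * (b : F) ^ 2 ≠ 0 :=
        mul_ne_zero hx (pow_ne_zero _ hb0)
      exact h3 (h1.symm.trans (map_zero (algebraMap (𝓞 F) F)))
    · rw [h1, map_mul, map_pow]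
      have h3 : f (b : F) ≠ 0 := (map_ne_zero f).2 hb0
      have h4 := hpos f
      positivity
    · rw [h1, map_mul, map_pow]
      exact (hv p).mul ⟨_, pow_two _⟩
  obtain ⟨c, hc⟩ := h2
  refine ⟨c / (b : F), ?_⟩
  rw [h1] at hc
  change (a : F) / (b : F) = _
  rw [div_mul_div_comm, ← hc]
  field_simp

/-- The integer `b = 2 + u + u⁻¹` of `F`. -/
lemma exists_integer (hS : Setting σ₁ σ₂ τ) (u : (𝓞 H)ˣ) (hu : Good σ₁ σ₂ ((u : 𝓞 H) : H)) :
    ∃ B : 𝓞 F, algebraMap F H (B : F) = 2 + ((u : 𝓞 H) : H) + ((u : 𝓞 H) : H)⁻¹ := by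
  obtain ⟨b, hb⟩ := exists_F hS hu
  have hinv : ((u : 𝓞 H) : H)⁻¹ = (((u⁻¹ : (𝓞 H)ˣ) : 𝓞 H) : H) := by
    apply inv_eq_of_mul_eq_one_right
    rw [← map_mul (algebraMap (𝓞 H) H), Units.mul_inv, map_one]
  have hint : IsIntegral ℤ b := by
    rw [← isIntegral_algebraMap_iff (B := H) (FaithfulSMul.algebraMap_injective F H), hb, hinv]
    refine IsIntegral.add (IsIntegral.add ?_ ?_) ?_
    · have h1 := IsIntegral.add (isIntegral_one (R := ℤ) (B := H)) isIntegral_one
      rwa [one_add_one_eq_two] at h1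
    · exact RingOfIntegers.isIntegral_coe _
    · exact RingOfIntegers.isIntegral_coe _
  exact ⟨⟨b, hint⟩, hb⟩

lemma ne_zero_of {u : H} (hu : Good σ₁ σ₂ u) {b : F} (hb : algebraMap F H b = 2 + u + u⁻¹) :
    b ≠ 0 := by
  obtain ⟨hu0, hu1⟩ := one_add_ne hu
  rintro rfl
  rw [map_zero] at hb
  have h1 := identity hu0
  rw [← hb, zero_mul] at h1
  exact hu1 (by simpa using h1.symm)

/-- Galois conjugates of `b`. -/
lemma conj_b {u : H} {b : F} (hb : algebraMap F H b = 2 + u + u⁻¹) [Normal K F]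
    (φ : H ≃ₐ[K] H) :
    algebraMap F H ((φ.restrictNormal F) b) = 2 + φ u + (φ u)⁻¹ := by
  rw [AlgEquiv.restrictNormal_commutes, hb, map_add, map_add, map_inv₀, map_ofNat]

/-- The Kummer step. -/
lemma abelianRoot_of [IsAbelianGalois K H] {u : H} (hu : Good σ₁ σ₂ u) {b : F}
    (hb : algebraMap F H b = 2 + u + u⁻¹)
    (hsq : ∀ σ : F ≃ₐ[K] F, IsSquare (b * σ b))
    (hc : (∃ σ₀ : F ≃ₐ[K] F, ∀ σ : F ≃ₐ[K] F, ∃ ρ, σ = ρ ^ 2 ∨ σ = σ₀ * ρ ^ 2) ∨
      ∃ k : K, k ≠ 0 ∧ IsSquare (b * algebraMap K F k)) : AbelianRoot K u := by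
  intro L _ _ _ _ s hs hgen
  have hFK : IsAbelianGalois K F := IsAbelianGalois.tower_bot K F H
  let _ : Algebra F L := ((algebraMap H L).comp (algebraMap F H)).toAlgebra
  have : IsScalarTower F H L := IsScalarTower.of_algebraMap_eq (fun x => rfl)
  have : IsScalarTower K F L := IsScalarTower.of_algebraMap_eq (fun x => by
    rw [IsScalarTower.algebraMap_apply K H L, IsScalarTower.algebraMap_apply K F H]; rfl)
  have hcomm : ∀ f g : H ≃ₐ[K] H, f * g = g * f := fun f g =>
    (IsMulCommutative.is_comm (M := H ≃ₐ[K] H)).comm f g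
  obtain ⟨hu0, hu1⟩ := one_add_ne hu
  have hb0 := ne_zero_of hu hb
  have hs0 : s ≠ 0 := by
    rintro rfl
    apply hu0
    have : algebraMap H L u = 0 := by rw [← hs]; ring
    exact (map_eq_zero _).1 this
  set a : L := algebraMap H L (1 + u) with ha
  have ha0 : a ≠ 0 := (map_ne_zero _).2 hu1
  set t : L := a / s with ht
  have ht0 : t ≠ 0 := div_ne_zero ha0 hs0
  have ht2 : t ^ 2 = algebraMap F L b := by
    rw [ht, div_pow, hs, IsScalarTower.algebraMap_apply F H L, hb,
      div_eq_iff ((map_ne_zero _).2 hu0), ← map_mul, identity hu0, ha, map_pow]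
  have hgt : adjoin H {t} = ⊤ := by
    refine adjoin_top s t hgen (1 + u) ?_
    rw [← ha, ht, div_div_cancel₀ ha0]
  have hN : Normal K L := by
    refine normal_of_sqrt (K := K) (algebraMap F H b) ((map_ne_zero _).2 hb0) t
      (by rw [ht2, IsScalarTower.algebraMap_apply F H L]) hgt (fun g => ?_)
    rw [← AlgEquiv.restrictNormal_commutes g F b, ← map_mul]
    exact (hsq (g.restrictNormal F)).map (algebraMap F H)
  have hGal : IsGalois K L := by
    have : Algebra.IsSeparable K L := inferInstance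
    exact ⟨⟩
  have hmul : ∀ f g : L ≃ₐ[K] L, f * g = g * f := by
    rcases hc with ⟨σ₀, h0⟩ | ⟨k, hk0, c, hc⟩
    · exact comm_of_sqrt (K := K) (F := F) (H := H) hcomm b hb0 t ht2 hgt hsq σ₀ h0
    · have hkF : algebraMap K F k ≠ 0 := (map_ne_zero _).2 hk0
      have hc0 : c ≠ 0 := by
        rintro rfl
        rw [mul_zero] at hc
        exact (mul_ne_zero hb0 hkF) hc
      set t' : L := algebraMap F L c / t with ht'
      have hcL : algebraMap F L c ≠ 0 := (map_ne_zero _).2 hc0
      have h1 : t' ^ 2 = algebraMap K L k := by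
        rw [ht', div_pow, ht2, div_eq_iff ((map_ne_zero _).2 hb0), ← map_pow,
          IsScalarTower.algebraMap_apply K F L, ← map_mul]
        congr 1
        rw [pow_two, ← hc]; ring
      have h2 : adjoin H {t'} = ⊤ := by
        refine adjoin_top t t' hgt (algebraMap F H c) ?_
        rw [← IsScalarTower.algebraMap_apply F H L, ht', div_div_cancel₀ hcL]
      exact comm_of_base (K := K) (H := H) hcomm k t' h1 h2
  exact { is_comm := ⟨hmul⟩ }

end Pool.Agent.H86.SQ
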