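import Pool.Agent.H86.SQ.PrimeDisc

/-!
# Reduction to the automorphisms of odd order
-/

set_option autoImplicit false
set_option linter.unusedSectionVars false

namespace Pool.Agent.H86.SQ

open IntermediateField NumberField IsDedekindDomain

/-- If the narrow class number of `K` is odd and at most one prime of `F` is ramified over `K`, then a
totally positive element of `F` with even divisor whose class modulo squares is invariant under the
automorphisms of odd order is a square. -/
theorem odd_part {K F : Type} [Field K] [NumberField K] [Field F] [NumberField F] [Algebra K F]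
    [IsAbelianGalois K F] (hK : EvenSquares K) (hF : AllReal F)
    (hone : ∀ Q Q' : HeightOneSpectrum (𝓞 F), RamifiedOver K Q → RamifiedOver K Q' → Q = Q')
    (c : F) (hc0 : c ≠ 0) (hpos : ∀ f : F →+* ℝ, 0 < f c)
    (hev : ∀ p : HeightOneSpectrum (𝓞 F), IsSquare (p.valuation F c))
    (hodd : ∀ φ : F ≃ₐ[K] F, Odd (orderOf φ) → IsSquare (c * φ c)) : IsSquare c := by
  classical
  have hfd : FiniteDimensional K F := Module.Finite.of_restrictScalars_finite ℚ K F
  have hcomm : ∀ f g : F ≃ₐ[K] F, f * g = g * f := fun f g =>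
    (IsMulCommutative.is_comm (M := F ≃ₐ[K] F)).comm f g
  have hC : ∀ a b : F ≃ₐ[K] F, Commute a b := hcomm
  obtain ⟨a, m, hm, hn⟩ := Nat.exists_eq_two_pow_mul_odd (n := Nat.card (F ≃ₐ[K] F))
    Nat.card_pos.ne'
  let D : Subgroup (F ≃ₐ[K] F) :=
    { carrier := {σ | σ ^ m = 1}
      mul_mem' := by
        intro x y hx hy
        change (x * y) ^ m = 1
        rw [(hC x y).mul_pow, show x ^ m = 1 from hx, show y ^ m = 1 from hy, one_mul]
      one_mem' := one_pow m
      inv_mem' := by
        intro x hx
        change x⁻¹ ^ m = 1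
        rw [inv_pow, show x ^ m = 1 from hx, inv_one] }
  have hDm : ∀ x, x ∈ D ↔ x ^ m = 1 := fun x => Iff.rfl
  have hDn : D.Normal := ⟨fun x hx g => by
    rw [hcomm g x, mul_assoc, mul_inv_cancel, mul_one]; exact hx⟩
  have hDodd : Odd (Nat.card D) := by
    by_contra hcon
    rw [Nat.not_odd_iff_even] at hcon
    have : Fact (Nat.Prime 2) := ⟨Nat.prime_two⟩
    obtain ⟨x, hx⟩ := exists_prime_orderOf_dvd_card' (G := D) 2 hcon.two_dvd
    have h1 : x ^ m = 1 := Subtype.ext (by
      rw [SubgroupClass.coe_pow]; exact (hDm _).1 x.2)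
    have h2 := orderOf_dvd_of_pow_eq_one h1
    rw [hx] at h2
    exact (Nat.not_even_iff_odd.2 hm) (even_iff_two_dvd.2 h2)
  have hp : IsPGroup 2 ((F ≃ₐ[K] F) ⧸ D) := by
    intro g
    refine ⟨a, ?_⟩
    induction g using QuotientGroup.induction_on with
    | H σ =>
      rw [← QuotientGroup.mk_pow, QuotientGroup.eq_one_iff, hDm, ← pow_mul, ← hn]
      exact pow_card_eq_one'
  obtain ⟨b, hb⟩ := IsPGroup.iff_card.1 hp
  let E : IntermediateField K F := fixedField D
  have hGE : IsGalois K E := IsGalois.of_fixedField_normal_subgroup D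
  have hNE : NumberField E := NumberField.of_intermediateField E
  have hLE : Module.finrank E F = Nat.card D := finrank_fixedField_eq_card D
  have hGL : IsGalois E F := IsGalois.tower_top_intermediateField E
  have hfdE : FiniteDimensional E F := Module.Finite.of_restrictScalars_finite ℚ E F
  have hfdM : FiniteDimensional K E := Module.Finite.of_restrictScalars_finite ℚ K E
  have hcE : Nat.card (E ≃ₐ[K] E) = 2 ^ b := by
    rw [IsGalois.card_aut_eq_finrank]
    have h1 := Module.finrank_mul_finrank K E F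
    have h2 := D.card_mul_index
    rw [hLE, ← IsGalois.card_aut_eq_finrank K F, ← h2, mul_comm] at h1
    have h3 := Nat.eq_of_mul_eq_mul_left Nat.card_pos h1
    rw [h3, Subgroup.index, hb]
  have hE : EvenSquares E := evenSquares_tower b K E hK hcE hF.down
    (one_down (K := K) (F := E) (H := F) hone)
  -- the norm is a square
  have hN0 : Algebra.norm E c ≠ 0 := Algebra.norm_ne_zero_iff.2 hc0
  obtain ⟨z, hz⟩ := hE (Algebra.norm E c) hN0 (fun f => by
      obtain ⟨g, hg⟩ := hF.extend f
      rw [← hg, Algebra.norm_eq_prod_automorphisms, map_prod]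
      exact Finset.prod_pos fun φ _ => hpos (g.comp (φ : F →+* F))) (norm_even c hc0 hev)
  have hφ : ∀ φ : F ≃ₐ[E] F, IsSquare (c * φ c) := by
    intro φ
    have hmem : AlgEquiv.restrictScalarsHom K φ ∈ D := by
      rw [← fixingSubgroup_fixedField D, IntermediateField.mem_fixingSubgroup_iff]
      intro x hx
      exact φ.commutes (⟨x, hx⟩ : E)
    have h1 := orderOf_dvd_of_pow_eq_one ((hDm _).1 hmem)
    exact hodd (AlgEquiv.restrictScalarsHom K φ) (hm.of_dvd_nat h1)
  have hprod : IsSquare (∏ φ : F ≃ₐ[E] F, (c * φ c)) :=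
    Finset.prod_induction _ IsSquare (fun _ _ => IsSquare.mul) IsSquare.one (fun φ _ => hφ φ)
  rw [Finset.prod_mul_distrib, Finset.prod_const, Finset.card_univ, ← Nat.card_eq_fintype_card,
    IsGalois.card_aut_eq_finrank, hLE, ← Algebra.norm_eq_prod_automorphisms, hz, map_mul] at hprod
  obtain ⟨k, hk⟩ := hDodd
  obtain ⟨w, hw⟩ := hprod
  have hz0 : algebraMap E F z ≠ 0 := by
    intro h0
    apply hN0
    have h1 : z = 0 := (map_eq_zero _).1 h0
    rw [hz, h1, mul_zero]
  have hck : c ^ k ≠ 0 := pow_ne_zero k hc0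
  refine ⟨w / (c ^ k * algebraMap E F z), ?_⟩
  rw [div_mul_div_comm, eq_div_iff (mul_ne_zero (mul_ne_zero hck hz0) (mul_ne_zero hck hz0)), ← hw,
    hk]
  ring

end Pool.Agent.H86.SQ
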