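import Pool.Agent.H86.SQ.Step

/-!
# Extensions of two-power degree with one ramified prime
-/

set_option autoImplicit false
set_option linter.unusedSectionVars false

namespace Pool.Agent.H86.SQ

open IntermediateField NumberField IsDedekindDomain

/-- The prime `Q` of `L` is ramified over `M`. -/
def RamifiedOver (M : Type) {L : Type} [Field M] [NumberField M] [Field L] [NumberField L]
    [Algebra M L] (Q : HeightOneSpectrum (𝓞 L)) : Prop :=
  (Q.asIdeal.under (𝓞 M)).map (algebraMap (𝓞 M) (𝓞 L)) ≤ Q.asIdeal ^ 2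

section
variable {M L₁ L : Type} [Field M] [NumberField M] [Field L₁] [NumberField L₁] [Field L]
  [NumberField L] [Algebra M L₁] [Algebra L₁ L] [Algebra M L] [IsScalarTower M L₁ L]

lemma RamifiedOver.of_top {Q : HeightOneSpectrum (𝓞 L)} (h : RamifiedOver L₁ Q) :
    RamifiedOver M Q := by
  unfold RamifiedOver at *
  rw [Ideal.map_le_iff_le_comap] at *
  intro x hx
  rw [Ideal.mem_comap, IsScalarTower.algebraMap_apply (𝓞 M) (𝓞 L₁) (𝓞 L)]
  apply h
  rw [Ideal.under_def, Ideal.mem_comap] at hx ⊢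
  rwa [← IsScalarTower.algebraMap_apply (𝓞 M) (𝓞 L₁) (𝓞 L)]

lemma exists_above (q : HeightOneSpectrum (𝓞 M)) :
    ∃ Q : HeightOneSpectrum (𝓞 L), Q.asIdeal.under (𝓞 M) = q.asIdeal := by
  have : q.asIdeal.IsMaximal := q.isMaximal
  obtain ⟨Q, hQ, hover⟩ := Ideal.exists_maximal_ideal_liesOver_of_isIntegral (S := 𝓞 L) q.asIdeal
  have hbot : Q ≠ ⊥ := by
    rintro rfl
    apply q.ne_bot
    rw [hover.over, Ideal.under_def]
    exact Ideal.comap_bot_of_injective _ (FaithfulSMul.algebraMap_injective (𝓞 M) (𝓞 L))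
  exact ⟨⟨Q, hQ.isPrime, hbot⟩, hover.over.symm⟩

lemma exists_ramifiedOver {q : HeightOneSpectrum (𝓞 M)} (h : RamifiedIn L₁ q) :
    ∃ Q : HeightOneSpectrum (𝓞 L), Q.asIdeal.under (𝓞 M) = q.asIdeal ∧ RamifiedOver M Q := by
  obtain ⟨Q, hQ⟩ := exists_above (L := L) q
  refine ⟨Q, hQ, ?_⟩
  have hprime : (Q.asIdeal.under (𝓞 L₁)).IsPrime := Ideal.IsPrime.under (𝓞 L₁) Q.asIdeal
  have hover : (Q.asIdeal.under (𝓞 L₁)).LiesOver q.asIdeal := by
    constructor
    rw [Ideal.under_under, hQ]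
  have h1 := h _ hprime hover
  unfold RamifiedOver
  rw [hQ, Ideal.map_le_iff_le_comap]
  rw [Ideal.map_le_iff_le_comap] at h1
  intro x hx
  have h2 := h1 hx
  rw [Ideal.mem_comap] at h2 ⊢
  rw [IsScalarTower.algebraMap_apply (𝓞 M) (𝓞 L₁) (𝓞 L)]
  have h3 : (Q.asIdeal.under (𝓞 L₁) ^ 2).map (algebraMap (𝓞 L₁) (𝓞 L)) ≤ Q.asIdeal ^ 2 := by
    rw [Ideal.map_pow]
    refine Ideal.pow_right_mono ?_ 2
    rw [Ideal.map_le_iff_le_comap, Ideal.under_def]
  exact h3 (Ideal.mem_map_of_mem _ h2)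

end

/-- All embeddings of the field are real. -/
def AllReal (L : Type) [Field L] : Prop := ∀ φ : L →+* ℂ, ComplexEmbedding.IsReal φ

lemma AllReal.extend {M L : Type} [Field M] [NumberField M] [Field L] [NumberField L] [Algebra M L]
    (h : AllReal L) (f : M →+* ℝ) : ∃ g : L →+* ℝ, ∀ x : M, g (algebraMap M L x) = f x := by
  refine ⟨(h (ComplexEmbedding.lift L (Complex.ofRealHom.comp f))).embedding, fun x => ?_⟩
  have h1 : (((h (ComplexEmbedding.lift L (Complex.ofRealHom.comp f))).embedding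
      (algebraMap M L x) : ℝ) : ℂ) = ((f x : ℝ) : ℂ) := by
    rw [ComplexEmbedding.IsReal.coe_embedding_apply]
    exact ComplexEmbedding.lift_algebraMap_apply _ _ x
  exact_mod_cast h1

lemma AllReal.down {M L : Type} [Field M] [NumberField M] [Field L] [NumberField L] [Algebra M L]
    (h : AllReal L) : AllReal M := by
  intro φ
  have h1 := h (ComplexEmbedding.lift L φ)
  rw [ComplexEmbedding.isReal_iff] at h1 ⊢
  ext x
  have h2 := congrArg (fun f : L →+* ℂ => f (algebraMap M L x)) h1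
  change (starRingEnd ℂ) (ComplexEmbedding.lift L φ (algebraMap M L x)) =
    ComplexEmbedding.lift L φ (algebraMap M L x) at h2
  rw [ComplexEmbedding.lift_algebraMap_apply] at h2
  exact h2

/-- **The tower theorem.** Let `L / M` be a Galois extension of two-power degree, `L` totally real.
If at most one prime of `L` is ramified over `M` and the narrow class number of `M` is odd, the
narrow class number of `L` is odd. -/
theorem evenSquares_tower (a : ℕ) : ∀ (M L : Type) [Field M] [NumberField M] [Field L]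
    [NumberField L] [Algebra M L] [IsGalois M L], EvenSquares M →
    Nat.card (L ≃ₐ[M] L) = 2 ^ a → AllReal L →
    (∀ Q Q' : HeightOneSpectrum (𝓞 L), RamifiedOver M Q → RamifiedOver M Q' → Q = Q') →
    EvenSquares L := by
  induction a with
  | zero =>
    intro M L _ _ _ _ _ _ hM hcard hreal hone x hx hpos hev
    have hfd : FiniteDimensional M L := Module.Finite.of_restrictScalars_finite ℚ M L
    have hsub : Subsingleton (L ≃ₐ[M] L) := by
      rw [pow_zero, Nat.card_eq_one_iff_unique] at hcard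
      exact hcard.1
    have hnorm : algebraMap M L (Algebra.norm M x) = x := by
      rw [Algebra.norm_eq_prod_automorphisms]
      have h1 : (Finset.univ : Finset (L ≃ₐ[M] L)) = {1} := by
        ext ρ
        simp only [Finset.mem_univ, Finset.mem_singleton, true_iff]
        exact Subsingleton.elim _ _
      rw [h1, Finset.prod_singleton, AlgEquiv.one_apply]
    obtain ⟨z, hz⟩ := hM (Algebra.norm M x) (Algebra.norm_ne_zero_iff.2 hx) (fun f => by
        obtain ⟨g, hg⟩ := hreal.extend f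
        rw [← hg, hnorm]
        exact hpos g) (norm_even x hx hev)
    exact ⟨algebraMap M L z, by rw [← map_mul, ← hz, hnorm]⟩
  | succ a ih =>
    intro M L _ _ _ _ _ _ hM hcard hreal hone
    have hfd : FiniteDimensional M L := Module.Finite.of_restrictScalars_finite ℚ M L
    have : Fact (Nat.Prime 2) := ⟨Nat.prime_two⟩
    obtain ⟨N, hN⟩ := Sylow.exists_subgroup_card_pow_prime (G := L ≃ₐ[M] L) 2 (n := a)
      (by rw [hcard]; exact pow_dvd_pow 2 (Nat.le_succ a))
    have hidx : N.index = 2 := by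
      have h1 := N.card_mul_index
      rw [hN, hcard, pow_succ] at h1
      exact Nat.eq_of_mul_eq_mul_left (pow_pos (by norm_num) a) h1
    have hnormal : N.Normal := Subgroup.normal_of_index_eq_two hidx
    let E : IntermediateField M L := fixedField N
    have hGE : IsGalois M E := IsGalois.of_fixedField_normal_subgroup N
    have hNE : NumberField E := NumberField.of_intermediateField E
    have hLE : Module.finrank E L = 2 ^ a := by
      rw [← hN]; exact finrank_fixedField_eq_card N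
    have hGL : IsGalois E L := IsGalois.tower_top_intermediateField E
    have hfdE : FiniteDimensional E L := Module.Finite.of_restrictScalars_finite ℚ E L
    have hfdM : FiniteDimensional M E := Module.Finite.of_restrictScalars_finite ℚ M E
    have hcE : Nat.card (L ≃ₐ[E] L) = 2 ^ a := by rw [IsGalois.card_aut_eq_finrank, hLE]
    have hcM : Nat.card (E ≃ₐ[M] E) = 2 := by
      rw [IsGalois.card_aut_eq_finrank]
      have h1 := Module.finrank_mul_finrank M E L
      rw [hLE, ← IsGalois.card_aut_eq_finrank M L, hcard, pow_succ, mul_comm] at h1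
      exact Nat.eq_of_mul_eq_mul_left (pow_pos (by norm_num) a) h1
    have hE : EvenSquares E := evenSquares_quad hM hcM (hreal.down (M := E)).extend
      (fun q q' hq hq' => by
        obtain ⟨Q, hQ, hQr⟩ := exists_ramifiedOver (L := L) hq
        obtain ⟨Q', hQ', hQr'⟩ := exists_ramifiedOver (L := L) hq'
        have h1 := hone Q Q' hQr hQr'
        apply HeightOneSpectrum.ext
        rw [← hQ, ← hQ', h1])
    exact ih E L hE hcE hreal (fun Q Q' hQ hQ' => hone Q Q' hQ.of_top hQ'.of_top)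

/-- A square root which belongs to a subgroup of index two. -/
lemma exists_delta' {M L : Type} [Field M] [NumberField M] [Field L] [NumberField L]
    [Algebra M L] [IsGalois M L] [FiniteDimensional M L] (N : Subgroup (L ≃ₐ[M] L)) (hidx : N.index = 2) :
    ∃ (d : M) (β : L), β ≠ 0 ∧ algebraMap M L d = β ^ 2 ∧
      (∀ σ ∈ N, σ β = β) ∧ ∀ σ ∉ N, σ β = -β := by
  classical
  let y : (L ≃ₐ[M] L) → L := fun σ => if σ ∈ N then 1 else -1
  obtain ⟨β, hβ0, hβ⟩ := hilbert90 y (fun σ => by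
      simp only [y]; split_ifs <;> norm_num) (fun σ τ => by
      have h1 := Subgroup.mul_mem_iff_of_index_two hidx (a := σ) (b := τ)
      simp only [y]
      by_cases h2 : σ ∈ N <;> by_cases h3 : τ ∈ N <;> simp [h1, h2, h3])
  have hfix : β ^ 2 ∈ Set.range (algebraMap M L) := by
    rw [IsGalois.mem_range_algebraMap_iff_fixed]
    intro σ
    rw [map_pow, hβ, mul_pow]
    have : y σ ^ 2 = 1 := by simp only [y]; split_ifs <;> norm_num
    rw [this, mul_one]
  obtain ⟨d, hd⟩ := hfix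
  refine ⟨d, β, hβ0, hd, fun σ hσ => ?_, fun σ hσ => ?_⟩
  · rw [hβ]; simp [y, hσ]
  · rw [hβ]; simp [y, hσ]

/-- There is at most one quadratic extension. -/
theorem unique_index_two {M L : Type} [Field M] [NumberField M] [Field L] [NumberField L]
    [Algebra M L] [IsGalois M L] (hM : EvenSquares M) (hreal : AllReal L)
    (hone : ∀ Q Q' : HeightOneSpectrum (𝓞 L), RamifiedOver M Q → RamifiedOver M Q' → Q = Q')
    (N₁ N₂ : Subgroup (L ≃ₐ[M] L)) (h₁ : N₁.index = 2) (h₂ : N₂.index = 2) : N₁ = N₂ := by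
  have hfd : FiniteDimensional M L := Module.Finite.of_restrictScalars_finite ℚ M L
  have hsame : ∀ q q' : HeightOneSpectrum (𝓞 M), RamifiedIn L q → RamifiedIn L q' → q = q' := by
    intro q q' hq hq'
    obtain ⟨Q, hQ, hQr⟩ := exists_ramifiedOver (L := L) hq
    obtain ⟨Q', hQ', hQr'⟩ := exists_ramifiedOver (L := L) hq'
    have h1 := hone Q Q' hQr hQr'
    apply HeightOneSpectrum.ext
    rw [← hQ, ← hQ', h1]
  have key : ∀ N : Subgroup (L ≃ₐ[M] L), N.index = 2 → ∃ (d : M) (β : L), d ≠ 0 ∧ β ≠ 0 ∧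
      algebraMap M L d = β ^ 2 ∧ (∀ σ ∈ N, σ β = β) ∧ (∀ σ ∉ N, σ β = -β) ∧
      (∀ f : M →+* ℝ, 0 < f d) ∧
      (∀ q : HeightOneSpectrum (𝓞 M), ¬ RamifiedIn L q → IsSquare (q.valuation M d)) ∧
      ∃ q : HeightOneSpectrum (𝓞 M), RamifiedIn L q ∧ ¬ IsSquare (q.valuation M d) := by
    intro N hN
    obtain ⟨d, β, hβ0, hd, hin, hout⟩ := exists_delta' N hN
    have hd0 : d ≠ 0 := by
      rintro rfl
      rw [map_zero] at hd
      exact (pow_ne_zero 2 hβ0) hd.symm
    have hdpos : ∀ f : M →+* ℝ, 0 < f d := by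
      intro f
      obtain ⟨g, hg⟩ := hreal.extend f
      rw [← hg, hd, map_pow]
      have : g β ≠ 0 := (map_ne_zero g).2 hβ0
      positivity
    have hdev : ∀ q : HeightOneSpectrum (𝓞 M), ¬ RamifiedIn L q →
        IsSquare (q.valuation M d) := by
      intro q hq
      obtain ⟨Q, hQ⟩ := exists_valuation_eq (L := L) q hq
      rw [hQ, hd, map_pow]
      exact ⟨_, pow_two _⟩
    refine ⟨d, β, hd0, hβ0, hd, hin, hout, hdpos, hdev, ?_⟩
    by_contra hcon
    push Not at hcon
    obtain ⟨n, hn⟩ := hM d hd0 hdpos (fun q => by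
      by_cases hq : RamifiedIn L q
      · exact hcon q hq
      · exact hdev q hq)
    obtain ⟨σ, hσ⟩ : ∃ σ : L ≃ₐ[M] L, σ ∉ N := by
      by_contra hcon
      push Not at hcon
      have h1 : N = ⊤ := by
        rw [eq_top_iff]
        exact fun g _ => hcon g
      rw [h1, Subgroup.index_top] at hN
      omega
    have h1 : (algebraMap M L n) ^ 2 = β ^ 2 := by rw [← hd, hn, map_mul, pow_two]
    have h2 : σ β = β := by
      rcases sq_eq_sq_iff_eq_or_eq_neg.1 h1 with h | h
      · rw [← h, AlgEquiv.commutes]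
      · have h3 : β = -(algebraMap M L n) := by rw [h, neg_neg]
        rw [h3, map_neg, AlgEquiv.commutes]
    rw [hout σ hσ] at h2
    have h4 : β = 0 := by linear_combination (-1 / 2 : L) * h2
    exact hβ0 h4
  obtain ⟨d₁, β₁, hd₁, hβ₁, e₁, in₁, out₁, pos₁, ev₁, q₁, r₁, o₁⟩ := key N₁ h₁
  obtain ⟨d₂, β₂, hd₂, hβ₂, e₂, in₂, out₂, pos₂, ev₂, q₂, r₂, o₂⟩ := key N₂ h₂
  obtain ⟨n, hn⟩ := hM (d₁ * d₂) (mul_ne_zero hd₁ hd₂) (fun f => by
      rw [map_mul]; exact mul_pos (pos₁ f) (pos₂ f)) (fun q => by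
      rw [map_mul]
      by_cases hq : RamifiedIn L q
      · rw [hsame q₂ q r₂ hq] at o₂
        rw [hsame q₁ q r₁ hq] at o₁
        exact isSquare_mul_of_not ((map_ne_zero _).2 hd₁) ((map_ne_zero _).2 hd₂) o₁ o₂
      · exact (ev₁ q hq).mul (ev₂ q hq))
  have h1 : (algebraMap M L n) ^ 2 = (β₁ * β₂) ^ 2 := by
    rw [mul_pow, ← e₁, ← e₂, ← map_mul, hn, map_mul, pow_two]
  have hfix : ∀ σ : L ≃ₐ[M] L, σ (β₁ * β₂) = β₁ * β₂ := by
    intro σ
    rcases sq_eq_sq_iff_eq_or_eq_neg.1 h1 with h | h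
    · rw [← h, AlgEquiv.commutes]
    · have h3 : β₁ * β₂ = -(algebraMap M L n) := by rw [h, neg_neg]
      rw [h3, map_neg, AlgEquiv.commutes]
  have hne : β₁ * β₂ ≠ 0 := mul_ne_zero hβ₁ hβ₂
  ext σ
  have h2 := hfix σ
  rw [map_mul] at h2
  by_cases m₁ : σ ∈ N₁ <;> by_cases m₂ : σ ∈ N₂
  · exact ⟨fun _ => m₂, fun _ => m₁⟩
  · exfalso
    rw [in₁ σ m₁, out₂ σ m₂] at h2
    exact hne (by linear_combination (-1 / 2 : L) * h2)
  · exfalso
    rw [out₁ σ m₁, in₂ σ m₂] at h2
    exact hne (by linear_combination (-1 / 2 : L) * h2)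
  · exact ⟨fun h => absurd h m₁, fun h => absurd h m₂⟩

/-- In a finite commutative group with an element `b` which is not a square, nor `a` times a square,
there is a subgroup of index two which contains `a` but not `b`. -/
lemma exists_index_two {G : Type} [CommGroup G] [Finite G] (a b : G) (h : ∀ ρ : G, b ≠ ρ ^ 2)
    (h' : ∀ ρ : G, b ≠ a * ρ ^ 2) : ∃ N : Subgroup G, N.index = 2 ∧ a ∈ N ∧ b ∉ N := by
  classical
  let S : Set (Subgroup G) := {N | (∀ ρ : G, ρ ^ 2 ∈ N) ∧ a ∈ N ∧ b ∉ N}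
  have hne : S.Nonempty := by
    refine ⟨{ carrier := {g | (∃ ρ : G, g = ρ ^ 2) ∨ ∃ ρ : G, g = a * ρ ^ 2}
              mul_mem' := ?_
              one_mem' := Or.inl ⟨1, by simp⟩
              inv_mem' := ?_ }, ?_, ?_, ?_⟩
    · rintro x y (⟨r, rfl⟩ | ⟨r, rfl⟩) (⟨s, rfl⟩ | ⟨s, rfl⟩)
      · exact Or.inl ⟨r * s, by rw [mul_pow]⟩
      · exact Or.inr ⟨r * s, by rw [mul_pow, mul_left_comm]⟩
      · exact Or.inr ⟨r * s, by rw [mul_pow, mul_assoc]⟩
      · exact Or.inl ⟨a * r * s, by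
          rw [mul_mul_mul_comm, ← pow_two, mul_pow, mul_pow, mul_assoc]⟩
    · rintro x (⟨r, rfl⟩ | ⟨r, rfl⟩)
      · exact Or.inl ⟨r⁻¹, by rw [inv_pow]⟩
      · refine Or.inr ⟨(a * r)⁻¹, ?_⟩
        rw [inv_pow, mul_pow, mul_inv, mul_inv, ← mul_assoc]
        congr 1
        rw [pow_two, mul_inv, ← mul_assoc, mul_inv_cancel, one_mul]
    · intro ρ
      exact Or.inl ⟨ρ, rfl⟩
    · exact Or.inr ⟨1, by simp⟩
    · rintro (⟨r, hr⟩ | ⟨r, hr⟩)
      · exact h r hr
      · exact h' r hr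
  obtain ⟨N, hN⟩ := S.toFinite.exists_maximal hne
  obtain ⟨⟨hsq, haN, hbN⟩, hmax⟩ := hN
  refine ⟨N, ?_, haN, hbN⟩
  rw [Subgroup.index_eq_two_iff]
  refine ⟨b, fun c => ?_⟩
  by_cases hc : c ∈ N
  · right
    refine ⟨hc, fun hcb => hbN ?_⟩
    have := N.mul_mem (N.inv_mem hc) hcb
    rwa [← mul_assoc, inv_mul_cancel, one_mul] at this
  · left
    refine ⟨?_, hc⟩
    by_contra hcb
    -- the larger group `N ∪ c N`
    let N' : Subgroup G :=
      { carrier := {g | g ∈ N ∨ c * g ∈ N}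
        mul_mem' := by
          rintro x y (hx | hx) (hy | hy)
          · exact Or.inl (N.mul_mem hx hy)
          · refine Or.inr ?_
            have := N.mul_mem hx hy
            rwa [mul_left_comm] at this
          · refine Or.inr ?_
            have := N.mul_mem hx hy
            rwa [mul_assoc] at this
          · refine Or.inl ?_
            have h1 := N.mul_mem (N.mul_mem hx hy) (N.inv_mem (hsq c))
            have h2 : c * x * (c * y) * (c ^ 2)⁻¹ = x * y := by
              rw [mul_mul_mul_comm, ← pow_two, mul_comm (c ^ 2), mul_assoc, mul_inv_cancel, mul_one]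
            rwa [h2] at h1
        one_mem' := Or.inl N.one_mem
        inv_mem' := by
          rintro x (hx | hx)
          · exact Or.inl (N.inv_mem hx)
          · refine Or.inr ?_
            have h1 := N.mul_mem (N.inv_mem hx) (hsq c)
            have h2 : (c * x)⁻¹ * c ^ 2 = c * x⁻¹ := by
              rw [mul_inv, pow_two, mul_comm c⁻¹ x⁻¹, mul_assoc, ← mul_assoc c⁻¹, inv_mul_cancel,
                one_mul, mul_comm]
            rwa [h2] at h1 }
    have hle : N ≤ N' := fun g hg => Or.inl hg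
    have hmem : N' ∈ S := by
      refine ⟨fun ρ => Or.inl (hsq ρ), Or.inl haN, ?_⟩
      rintro (hb | hb)
      · exact hbN hb
      · exact hcb hb
    have hc' : c⁻¹ ∈ N' := Or.inr (by rw [mul_inv_cancel]; exact N.one_mem)
    have h3 := hmax hmem hle hc'
    exact hc (by simpa using N.inv_mem h3)

/-- A finite commutative group with at most one subgroup of index two. -/
lemma rank_of_unique {G : Type} [CommGroup G] [Finite G]
    (h : ∀ N₁ N₂ : Subgroup G, N₁.index = 2 → N₂.index = 2 → N₁ = N₂) :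
    ∃ σ₀ : G, ∀ σ : G, ∃ ρ : G, σ = ρ ^ 2 ∨ σ = σ₀ * ρ ^ 2 := by
  by_cases hall : ∀ σ : G, ∃ ρ : G, σ = ρ ^ 2
  · exact ⟨1, fun σ => by
      obtain ⟨ρ, hρ⟩ := hall σ
      exact ⟨ρ, Or.inl hρ⟩⟩
  push Not at hall
  obtain ⟨σ₀, h0⟩ := hall
  refine ⟨σ₀, fun σ => ?_⟩
  by_contra hcon
  push Not at hcon
  obtain ⟨N₁, i₁, a₁, b₁⟩ := exists_index_two σ₀ σ (fun ρ => (hcon ρ).1) (fun ρ => (hcon ρ).2)
  obtain ⟨N₂, i₂, a₂, b₂⟩ := exists_index_two σ σ₀ h0 (fun ρ hρ => (hcon ρ⁻¹).2 (by
    rw [hρ, inv_pow, mul_assoc, mul_inv_cancel, mul_one]))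
  rw [h N₁ N₂ i₁ i₂] at b₁
  exact b₁ a₂

end Pool.Agent.H86.SQ
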