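import Pool.Agent.H86.SQ.Stable

/-!
# Real quadratic fields with one ramified prime
-/

set_option autoImplicit false
set_option linter.unusedSectionVars false

namespace Pool.Agent.H86.SQ

open IntermediateField NumberField IsDedekindDomain

lemma evenSquares_rat : EvenSquares ℚ := by
  refine NarrowClassNumberOdd.evenSquares ⟨?_, fun u hu => ?_⟩
  · rw [Rat.classNumber_eq]; exact odd_one
  · rcases Rat.RingOfIntegers.isUnit_iff.1 u.isUnit with h | h
    · refine ⟨1, ?_⟩
      rw [mul_one]
      apply Units.ext
      apply RingOfIntegers.ext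
      rw [h]
      simp
    · exfalso
      have h1 := hu (Rat.castHom ℝ)
      rw [h] at h1
      norm_num at h1

/-- If at most one prime of the quadratic field `K` is ramified over `ℚ` then its narrow class
number is odd. -/
lemma evenSquares_one {K : Type} [Field K] [NumberField K] (h2 : Module.finrank ℚ K = 2)
    (hreal : AllReal K)
    (hone : ∀ Q Q' : HeightOneSpectrum (𝓞 K), RamifiedOver ℚ Q → RamifiedOver ℚ Q' → Q = Q') :
    EvenSquares K := by
  have hG : IsGalois ℚ K := by
    have : Algebra.IsQuadraticExtension ℚ K := ⟨h2⟩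
    infer_instance
  have hcard : Nat.card (K ≃ₐ[ℚ] K) = 2 := by rw [IsGalois.card_aut_eq_finrank, h2]
  refine evenSquares_quad evenSquares_rat hcard hreal.extend (fun q q' hq hq' => ?_)
  obtain ⟨Q, hQ, hQr⟩ := exists_ramifiedOver (L := K) hq
  obtain ⟨Q', hQ', hQr'⟩ := exists_ramifiedOver (L := K) hq'
  have h1 := hone Q Q' hQr hQr'
  apply HeightOneSpectrum.ext
  rw [← hQ, ← hQ', h1]

end Pool.Agent.H86.SQ
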