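import Pool.Agent.H86.SQ.OddPart

/-!
# The square root condition and the automorphisms of odd order
-/

set_option autoImplicit false
set_option linter.unusedSectionVars false

namespace Pool.Agent.H86.SQ

open IntermediateField NumberField IsDedekindDomain Polynomial

/-- If `H(√u) / K` is abelian then `u φ(u)` is a square in `H`. -/
lemma isSquare_of_abelianRoot {K H : Type} [Field K] [NumberField K] [Field H] [NumberField H]
    [Algebra K H] [IsAbelianGalois K H] {u : H} (h : AbelianRoot K u) (φ : H ≃ₐ[K] H) :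
    IsSquare (u * φ u) := by
  let f : H[X] := X ^ 2 - C u
  let L : Type := f.SplittingField
  have hdeg : f.degree = 2 := by
    exact degree_X_pow_sub_C (by norm_num) u
  obtain ⟨s, hs⟩ := (SplittingField.splits f).exists_eval_eq_zero (by
    rw [degree_map, hdeg]; norm_num)
  have hs2 : s ^ 2 = algebraMap H L u := by
    have h1 : aeval s f = 0 := by rw [aeval_def, ← eval_map]; exact hs
    simp only [f, map_sub, map_pow, aeval_X, aeval_C] at h1
    exact sub_eq_zero.1 h1
  have hgen : adjoin H {s} = (⊤ : IntermediateField H L) := by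
    rw [eq_top_iff]
    intro x _
    have h1 : x ∈ Algebra.adjoin H (f.rootSet L) := by
      rw [SplittingField.adjoin_rootSet f]; trivial
    have h2 : Algebra.adjoin H (f.rootSet L) ≤ (adjoin H {s}).toSubalgebra := by
      refine Algebra.adjoin_le ?_
      intro r hr
      have h3 : aeval r f = 0 := (mem_rootSet.1 hr).2
      simp only [f, map_sub, map_pow, aeval_X, aeval_C] at h3
      have h4 : r ^ 2 = s ^ 2 := by rw [hs2]; exact sub_eq_zero.1 h3
      have hsm : s ∈ adjoin H {s} := mem_adjoin_simple_self H s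
      rcases sq_eq_sq_iff_eq_or_eq_neg.1 h4 with h5 | h5
      · rw [h5]; exact hsm
      · rw [h5]; exact neg_mem hsm
    exact h2 h1
  have hab : IsAbelianGalois K L := h L s hs2 hgen
  have hnum : NumberField L := NumberField.of_module_finite H L
  have hGL : IsGalois H L := IsGalois.tower_top_of_isGalois K H L
  obtain ⟨ψ, hψ⟩ := AlgEquiv.restrictNormalHom_surjective (F := K) (K₁ := H) L φ
  have hψφ : ∀ x : H, ψ (algebraMap H L x) = algebraMap H L (φ x) := by
    intro x
    rw [← hψ]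
    exact (AlgEquiv.restrictNormal_commutes ψ H x).symm
  have hfix : s * ψ s ∈ Set.range (algebraMap H L) := by
    rw [IsGalois.mem_range_algebraMap_iff_fixed]
    intro κ
    have h1 : κ (ψ s) = ψ (κ s) := by
      have h2 := (IsMulCommutative.is_comm (M := L ≃ₐ[K] L)).comm
        (AlgEquiv.restrictScalarsHom K κ) ψ
      exact congrArg (fun e : L ≃ₐ[K] L => e s) h2
    have h3 : (κ s) ^ 2 = s ^ 2 := by rw [← map_pow, hs2, AlgEquiv.commutes]
    rw [map_mul, h1]
    rcases sq_eq_sq_iff_eq_or_eq_neg.1 h3 with h4 | h4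
    · rw [h4]
    · rw [h4, map_neg, neg_mul_neg]
  obtain ⟨w, hw⟩ := hfix
  refine ⟨w, ?_⟩
  apply (algebraMap H L).injective
  rw [map_mul, map_mul, hw, ← hψφ, ← hs2, map_pow]
  ring

variable {K F H : Type} [Field K] [NumberField K] [Field F] [NumberField F] [Field H]
  [NumberField H] [Algebra K F] [Algebra F H] [Algebra K H] [IsScalarTower K F H]
  {σ₁ σ₂ : K →+* ℝ} {τ : H ≃ₐ[F] H}

/-- A totally positive element of `F` which is a square in `H` is a square in `F`. -/
lemma isSquare_down (hS : Setting σ₁ σ₂ τ) (x : F) (hx : ∀ f : F →+* ℝ, 0 < f x)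
    (h : IsSquare (algebraMap F H x)) : IsSquare x := by
  obtain ⟨y, hy⟩ := h
  have h1 : (τ y) ^ 2 = y ^ 2 := by
    rw [← map_pow, pow_two, ← hy, AlgEquiv.commutes]
  rcases sq_eq_sq_iff_eq_or_eq_neg.1 h1 with h2 | h2
  · obtain ⟨z, hz⟩ := hS.fixed y h2
    refine ⟨z, FaithfulSMul.algebraMap_injective F H ?_⟩
    rw [hy, map_mul, hz]
  · exfalso
    obtain ⟨g, hg⟩ := exists_embedding (H := H) σ₂
    have hr := allReal hS (g.comp (algebraMap F H))
    have h3 := hx hr.embedding
    have h4 : ((hr.embedding x : ℝ) : ℂ) = g (algebraMap F H x) :=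
      ComplexEmbedding.IsReal.coe_embedding_apply hr x
    have h5 := hS.conj g hg y
    rw [h2, map_neg] at h5
    have h6 := Complex.mul_conj (g y)
    rw [h5, mul_neg, ← map_mul, ← hy, ← h4] at h6
    have h7 : -(hr.embedding x) = Complex.normSq (g y) := by exact_mod_cast h6
    have h8 := Complex.normSq_nonneg (g y)
    linarith

/-- **Theorem E.** -/
theorem abelian_E [IsAbelianGalois K H] (hS : Setting σ₁ σ₂ τ) (M : Type) [Field M]
    [NumberField M] [Algebra K M] [Algebra M F] [IsScalarTower K M F]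
    (hoddM : Odd (Module.finrank K M)) (hM : EvenSquares M)
    (hone : ∀ Q Q' : HeightOneSpectrum (𝓞 F), RamifiedOver M Q → RamifiedOver M Q' → Q = Q')
    (hR : ∀ p : HeightOneSpectrum (𝓞 F), RamifiedIn H p → ∀ (σ : F ≃ₐ[K] F) (x : F),
      p.valuation F (σ x) = p.valuation F x)
    (u : (𝓞 H)ˣ) (hu : Good σ₁ σ₂ ((u : 𝓞 H) : H))
    (hodd : ∀ φ : H ≃ₐ[K] H, Odd (orderOf φ) →
      (∀ x : M, φ (algebraMap F H (algebraMap M F x)) = algebraMap F H (algebraMap M F x)) →
      IsSquare (((u : 𝓞 H) : H) * φ ((u : 𝓞 H) : H))) : AbelianRoot K ((u : 𝓞 H) : H) := by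
  have hFK : IsAbelianGalois K F := IsAbelianGalois.tower_bot K F H
  have hfd : FiniteDimensional K F := Module.Finite.of_restrictScalars_finite ℚ K F
  have hfdM : FiniteDimensional M F := Module.Finite.of_restrictScalars_finite ℚ M F
  have hfdH : FiniteDimensional K H := Module.Finite.of_restrictScalars_finite ℚ K H
  have hGMF : IsGalois M F := IsGalois.tower_top_of_isGalois K M F
  have hF := allReal hS
  have hcomm : ∀ f g : F ≃ₐ[K] F, f * g = g * f := fun f g =>
    (IsMulCommutative.is_comm (M := F ≃ₐ[K] F)).comm f g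
  have hcommM : ∀ f g : F ≃ₐ[M] F, f * g = g * f := by
    intro f g
    have h1 := hcomm (AlgEquiv.restrictScalarsHom K f) (AlgEquiv.restrictScalarsHom K g)
    ext x
    exact congrArg (fun e : F ≃ₐ[K] F => e x) h1
  have hab : IsAbelianGalois M F := { is_comm := ⟨hcommM⟩ }
  obtain ⟨b, hb⟩ := exists_F hS hu
  have hb0 := ne_zero_of hu hb
  have hn := nice_of hS u hu b hb
  -- the automorphisms of odd order over `M`
  have hψ : ∀ ψ' : F ≃ₐ[M] F, Odd (orderOf ψ') → IsSquare (b * ψ' b) := by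
    intro ψ' hψo'
    obtain ⟨ψ, hψdef⟩ : ∃ ψ : F ≃ₐ[K] F, ψ = AlgEquiv.restrictScalarsHom K ψ' := ⟨_, rfl⟩
    have hinj : Function.Injective (AlgEquiv.restrictScalarsHom (S := M) (A := F) K) := by
      intro f g hfg
      ext x
      exact congrArg (fun e : F ≃ₐ[K] F => e x) hfg
    have hψo : Odd (orderOf ψ) := by
      rw [hψdef, orderOf_injective _ hinj]; exact hψo'
    have hψb : ψ' b = ψ b := by rw [hψdef]; rfl
    have hψM : ∀ x : M, ψ (algebraMap M F x) = algebraMap M F x := by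
      intro x
      rw [hψdef]
      exact ψ'.commutes x
    rw [hψb]
    obtain ⟨φ, hφ⟩ := AlgEquiv.restrictNormalHom_surjective (F := K) (K₁ := F) H ψ
    obtain ⟨e, m, hm, hN⟩ := Nat.exists_eq_two_pow_mul_odd (n := orderOf φ)
      (orderOf_pos φ).ne'
    obtain ⟨t, ht⟩ : ∃ t, t = (2 ^ e) ^ (orderOf ψ).totient := ⟨_, rfl⟩
    have htot : 0 < (orderOf ψ).totient := Nat.totient_pos.2 (orderOf_pos ψ)
    have h1 : ψ ^ t = ψ := by
      have hcop : (2 ^ e).Coprime (orderOf ψ) :=
        Nat.Coprime.pow_left e ((Nat.coprime_two_left).2 hψo)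
      have h2 : t ≡ 1 [MOD orderOf ψ] := by rw [ht]; exact Nat.ModEq.pow_totient hcop
      have h3 := pow_eq_pow_iff_modEq.2 h2
      rw [pow_one] at h3
      exact h3
    have h4 : (φ ^ t) ^ m = 1 := by
      obtain ⟨j, hj⟩ := Nat.exists_eq_succ_of_ne_zero htot.ne'
      rw [← pow_mul, ht, hj, pow_succ, mul_assoc, ← hN, mul_comm, pow_mul, pow_orderOf_eq_one,
        one_pow]
    have h5 : Odd (orderOf (φ ^ t)) := hm.of_dvd_nat (orderOf_dvd_of_pow_eq_one h4)
    have h6 : AlgEquiv.restrictNormalHom F (φ ^ t) = ψ := by rw [map_pow, hφ, h1]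
    have h6' : (φ ^ t).restrictNormal F = ψ := h6
    obtain ⟨w, hw⟩ := hodd (φ ^ t) h5 (fun x => by
      rw [← AlgEquiv.restrictNormal_commutes (φ ^ t) F (algebraMap M F x), h6', hψM])
    refine isSquare_down hS _ (fun f => ?_) ?_
    · rw [map_mul]
      exact mul_pos (hn.pos f) (hn.pos (f.comp (ψ : F →+* F)))
    · have h7 := conj_b (K := K) hb (φ ^ t)
      rw [h6'] at h7
      obtain ⟨a1, a2⟩ := one_add_ne hu
      obtain ⟨a3, a4⟩ := one_add_ne (hu.map (φ ^ t))
      have e1 := identity a1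
      have e2 := identity a3
      rw [← hb] at e1
      rw [← h7] at e2
      have hw0 : w ≠ 0 := by
        rintro rfl
        rw [mul_zero] at hw
        exact (mul_ne_zero a1 a3) hw
      refine ⟨(1 + ((u : 𝓞 H) : H)) * (1 + (φ ^ t) ((u : 𝓞 H) : H)) / w, ?_⟩
      rw [div_mul_div_comm, eq_div_iff (mul_ne_zero hw0 hw0), ← hw, map_mul]
      linear_combination (algebraMap F H (ψ b)) * ((φ ^ t) ((u : 𝓞 H) : H)) * e1 +
        (1 + ((u : 𝓞 H) : H)) ^ 2 * e2
  refine abelianRoot_of hu hb (fun σ => ?_) (Or.inl (rank_up hoddM (rank_of_unique' hcommM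
    (unique_index_two hM hF hone))))
  obtain ⟨X, hX, hX0, hpos, hv⟩ := nice_mul hn (nice_conj hS u hu b hb σ) (fun p hp => hR p hp σ b)
  have hc0 : b * σ b ≠ 0 := mul_ne_zero hb0 ((map_ne_zero σ).2 hb0)
  rw [hX] at hpos
  refine odd_part hM hF hone (b * σ b) hc0 hpos (fun p => by rw [← hX]; exact hv p)
    (fun ψ hψo => ?_)
  have h1 : ψ (σ b) = σ (ψ b) :=
    congrArg (fun e : F ≃ₐ[K] F => e b) (hcomm (AlgEquiv.restrictScalarsHom K ψ) σ)
  have h2 : b * σ b * ψ (b * σ b) = (b * ψ b) * σ (b * ψ b) := by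
    rw [map_mul, map_mul, h1]; ring
  rw [h2]
  exact (hψ ψ hψo).mul ((hψ ψ hψo).map σ)

end Pool.Agent.H86.SQ
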