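import Pool.Agent.H86.SQ.Tower

/-!
# If only one prime is ramified then it is stable
-/

set_option autoImplicit false
set_option linter.unusedSectionVars false

namespace Pool.Agent.H86.SQ

open IntermediateField NumberField IsDedekindDomain

lemma ramifiedOver_iff {M L : Type} [Field M] [NumberField M] [Field L] [NumberField L]
    [Algebra M L] (Q : HeightOneSpectrum (𝓞 L)) : RamifiedOver M Q ↔
    ∀ x : 𝓞 M, Q.valuation L (algebraMap M L (x : M)) < 1 →
      Q.valuation L (algebraMap M L (x : M)) ≤ WithZero.exp (-2 : ℤ) := by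
  have hcoe : ∀ x : 𝓞 M, algebraMap M L (x : M) = ((algebraMap (𝓞 M) (𝓞 L) x : 𝓞 L) : L) :=
    fun x => rfl
  unfold RamifiedOver
  rw [Ideal.map_le_iff_le_comap]
  have h2 : ∀ x : 𝓞 M, Q.valuation L (algebraMap M L (x : M)) ≤ WithZero.exp (-2 : ℤ) ↔
      algebraMap (𝓞 M) (𝓞 L) x ∈ Q.asIdeal ^ 2 := by
    intro x
    rw [hcoe, HeightOneSpectrum.valuation_of_algebraMap]
    exact HeightOneSpectrum.intValuation_le_pow_iff_mem Q _ 2
  have h1 : ∀ x : 𝓞 M, Q.valuation L (algebraMap M L (x : M)) < 1 ↔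
      algebraMap (𝓞 M) (𝓞 L) x ∈ Q.asIdeal := by
    intro x
    rw [hcoe]
    exact HeightOneSpectrum.valuation_lt_one_iff_mem Q _
  constructor
  · intro h x hx
    exact (h2 x).2 (h ((h1 x).1 hx))
  · intro h x hx
    exact (h2 x).1 (h x ((h1 x).2 hx))

/-- Transport of valuations by automorphisms. -/
lemma exists_transport {L : Type} [Field L] [NumberField L] (e : L ≃+* L)
    (p : HeightOneSpectrum (𝓞 L)) :
    ∃ p' : HeightOneSpectrum (𝓞 L), ∀ x : L, p.valuation L (e x) = p'.valuation L x := by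
  let E : 𝓞 L ≃+* 𝓞 L := RingOfIntegers.mapRingEquiv e
  have hprime : (p.asIdeal.comap E).IsPrime := Ideal.comap_isPrime _ _
  have hbot : p.asIdeal.comap E ≠ ⊥ := by
    intro h0
    obtain ⟨y, hy, hy0⟩ := Submodule.exists_mem_ne_zero_of_ne_bot p.ne_bot
    have h1 : E.symm y ∈ p.asIdeal.comap E := by
      rw [Ideal.mem_comap]
      simpa using hy
    rw [h0, Ideal.mem_bot] at h1
    exact hy0 (by simpa using h1)
  let p' : HeightOneSpectrum (𝓞 L) := ⟨_, hprime, hbot⟩
  have hpow : ∀ n : ℕ, p'.asIdeal ^ n = (p.asIdeal ^ n).comap E := by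
    intro n
    change (p.asIdeal.comap E) ^ n = _
    rw [← Ideal.map_symm, ← Ideal.map_symm, ← Ideal.map_pow]
  have hint : ∀ r : 𝓞 L, p.intValuation (E r) = p'.intValuation r := by
    intro r
    by_cases hr : r = 0
    · rw [hr, map_zero, map_zero, map_zero]
    have hEr : E r ≠ 0 := (map_ne_zero_iff _ E.injective).2 hr
    have hmem : ∀ n : ℕ, p.intValuation (E r) ≤ WithZero.exp (-(n : ℤ)) ↔
        p'.intValuation r ≤ WithZero.exp (-(n : ℤ)) := by
      intro n
      rw [HeightOneSpectrum.intValuation_le_pow_iff_mem,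
        HeightOneSpectrum.intValuation_le_pow_iff_mem, hpow, Ideal.mem_comap]
    refine le_antisymm ?_ ?_
    · have h1 := p'.intValuation_eq_exp_neg_multiplicity hr
      rw [h1]
      exact (hmem _).2 h1.le
    · have h1 := p.intValuation_eq_exp_neg_multiplicity hEr
      rw [h1]
      exact (hmem _).1 h1.le
  refine ⟨p', fun x => ?_⟩
  obtain ⟨a, b, _, rfl⟩ := IsFractionRing.div_surjective (A := 𝓞 L) x
  have hE : ∀ c : 𝓞 L, e (algebraMap (𝓞 L) L c) = algebraMap (𝓞 L) L (E c) := fun c => rfl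
  rw [map_div₀, map_div₀, map_div₀, hE, hE, HeightOneSpectrum.valuation_of_algebraMap,
    HeightOneSpectrum.valuation_of_algebraMap, HeightOneSpectrum.valuation_of_algebraMap,
    HeightOneSpectrum.valuation_of_algebraMap, hint, hint]

section
variable {K F H : Type} [Field K] [NumberField K] [Field F] [NumberField F] [Field H]
  [NumberField H] [Algebra K F] [Algebra F H] [Algebra K H] [IsScalarTower K F H]

/-- A prime of `F` which is ramified over `K` lies below a prime of `H` which is ramified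
over `K`. -/
lemma RamifiedOver.up {Q : HeightOneSpectrum (𝓞 F)} (h : RamifiedOver K Q)
    (w : HeightOneSpectrum (𝓞 H)) (hw : w.asIdeal.under (𝓞 F) = Q.asIdeal) : RamifiedOver K w := by
  unfold RamifiedOver at *
  have h1 : w.asIdeal.under (𝓞 K) = Q.asIdeal.under (𝓞 K) := by
    rw [← hw, Ideal.under_under]
  rw [h1, Ideal.map_le_iff_le_comap]
  rw [Ideal.map_le_iff_le_comap] at h
  intro x hx
  have h2 := h hx
  rw [Ideal.mem_comap] at h2 ⊢
  rw [IsScalarTower.algebraMap_apply (𝓞 K) (𝓞 F) (𝓞 H)]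
  have h3 : (Q.asIdeal ^ 2).map (algebraMap (𝓞 F) (𝓞 H)) ≤ w.asIdeal ^ 2 := by
    rw [Ideal.map_pow]
    refine Ideal.pow_right_mono ?_ 2
    rw [Ideal.map_le_iff_le_comap, ← hw, Ideal.under_def]
  exact h3 (Ideal.mem_map_of_mem _ h2)

/-- If at most one prime of `H` is ramified over `K`, the same is true for `F`. -/
lemma one_down (hone : ∀ Q Q' : HeightOneSpectrum (𝓞 H), RamifiedOver K Q → RamifiedOver K Q' →
    Q = Q') (Q Q' : HeightOneSpectrum (𝓞 F)) (h : RamifiedOver K Q) (h' : RamifiedOver K Q') :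
    Q = Q' := by
  obtain ⟨w, hw⟩ := exists_above (L := H) Q
  obtain ⟨w', hw'⟩ := exists_above (L := H) Q'
  have h1 := hone w w' (h.up w hw) (h'.up w' hw')
  apply HeightOneSpectrum.ext
  rw [← hw, ← hw', h1]

/-- If at most one prime of `H` is ramified over `K`, the prime of `F` which is ramified in `H` is
stable under `Gal(F/K)`. -/
lemma stable_of_one [IsAbelianGalois K H] (hone : ∀ Q Q' : HeightOneSpectrum (𝓞 H),
    RamifiedOver K Q → RamifiedOver K Q' → Q = Q')
    (p : HeightOneSpectrum (𝓞 F)) (hp : RamifiedIn H p) (σ : F ≃ₐ[K] F) (x : F) :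
    p.valuation F (σ x) = p.valuation F x := by
  have hFK : IsAbelianGalois K F := IsAbelianGalois.tower_bot K F H
  obtain ⟨w, hw, hwr⟩ := exists_ramifiedOver (L₁ := H) (L := H) hp
  have hwK : RamifiedOver K w := RamifiedOver.of_top (L₁ := F) hwr
  obtain ⟨φ, hφ⟩ := AlgEquiv.restrictNormalHom_surjective (F := K) (K₁ := F) H σ
  obtain ⟨w', hw'⟩ := exists_transport (φ : H ≃+* H) w
  have hw'' : ∀ y : H, w.valuation H (φ y) = w'.valuation H y := hw'
  have hw'K : RamifiedOver K w' := by
    rw [ramifiedOver_iff] at hwK ⊢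
    intro y hy
    rw [← hw'', AlgEquiv.commutes] at hy ⊢
    exact hwK y hy
  have heq : w = w' := hone w w' hwK hw'K
  have hlies : w.asIdeal.LiesOver p.asIdeal := ⟨hw.symm⟩
  have h1 : ∀ y : F, p.valuation F y ^ (p.asIdeal.ramificationIdx' w.asIdeal) =
      w.valuation H (algebraMap F H y) := fun y =>
    HeightOneSpectrum.valuation_liesOver (K := F) H p w y
  have he : p.asIdeal.ramificationIdx' w.asIdeal ≠ 0 := by
    intro h0
    obtain ⟨ϖ, hϖ⟩ := p.valuation_exists_uniformizer F
    have h2 := h1 ϖ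
    rw [h0, pow_zero] at h2
    obtain ⟨n, hn⟩ := p.valuation_exists_uniformizer' F
    have h3 : p.valuation F ((algebraMap (𝓞 F) F) n) < 1 := by
      rw [hn, ← WithZero.exp_zero, WithZero.exp_lt_exp]
      norm_num
    have h4 : n ∈ p.asIdeal := (HeightOneSpectrum.valuation_lt_one_iff_mem p n).1 h3
    have h5 : algebraMap (𝓞 F) (𝓞 H) n ∈ w.asIdeal := by
      rw [← hw, Ideal.under_def, Ideal.mem_comap] at h4
      exact h4
    have h6 := (HeightOneSpectrum.valuation_lt_one_iff_mem (K := H) w _).2 h5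
    have h7 := h1 ((algebraMap (𝓞 F) F) n)
    rw [h0, pow_zero] at h7
    exact absurd h6 (not_lt.2 h7.le)
  have h2 : algebraMap F H (σ x) = φ (algebraMap F H x) := by
    rw [← hφ]
    exact AlgEquiv.restrictNormal_commutes φ F x
  have h3 : p.valuation F (σ x) ^ (p.asIdeal.ramificationIdx' w.asIdeal) =
      p.valuation F x ^ (p.asIdeal.ramificationIdx' w.asIdeal) := by
    rw [h1, h1, h2, hw'', ← heq]
  exact (pow_left_inj₀ zero_le' zero_le' he).1 h3

end

end Pool.Agent.H86.SQ
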