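import Pool.Agent.H86.SQ.Reduce

/-!
# The conditions of the problem
-/

set_option autoImplicit false
set_option linter.unusedSectionVars false

namespace Pool.Agent.H86.SQ

open NumberField IsDedekindDomain

/-- The conditions 1, 2, 3 of the problem for the units `ε A`, with `z A` in place of
`ζ'(0, A)`. -/
structure StarkConditions {K H G : Type} [Field K] [Field H] [Algebra K H] [CommGroup G]
    (σ₂ : K →+* ℝ) (Art : G ≃* (H ≃ₐ[K] H)) (ι : H →+* ℝ) (z : G → ℝ) (ε : G → (𝓞 H)ˣ) :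
    Prop where
  value : ∀ A : G, ι ((ε A : 𝓞 H) : H) = Real.exp (-2 * z A)
  art : ∀ A B : G, Art B ((ε A : 𝓞 H) : H) = ((ε (A * B) : 𝓞 H) : H)
  circle : ∀ g : H →+* ℂ, (∀ x : K, g (algebraMap K H x) = (σ₂ x : ℂ)) →
    ∀ A : G, ‖g ((ε A : 𝓞 H) : H)‖ = 1

/-- `Gal(F/K)` fixes the primes of `F` which are ramified in `H`. -/
def RamifiedStable (K F H : Type) [Field K] [Field F] [NumberField F] [Field H] [NumberField H]
    [Algebra K F] [Algebra F H] : Prop :=
  ∀ p : HeightOneSpectrum (𝓞 F), RamifiedIn H p → ∀ (σ : F ≃ₐ[K] F) (x : F),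
    p.valuation F (σ x) = p.valuation F x

lemma good_of_stark {K H G : Type} [Field K] [NumberField K] [Field H] [NumberField H]
    [Algebra K H] [CommGroup G] [IsGalois K H] {σ₁ σ₂ : K →+* ℝ} (Art : G ≃* (H ≃ₐ[K] H))
    (ι : H →+* ℝ) (hι : ∀ x : K, ι (algebraMap K H x) = σ₁ x) (z : G → ℝ) (ε : G → (𝓞 H)ˣ)
    (h : StarkConditions σ₂ Art ι z ε) (A : G) : Good σ₁ σ₂ ((ε A : 𝓞 H) : H) := by
  refine ⟨fun g hg => ?_, fun g hg => h.circle g hg A⟩
  obtain ⟨φ, hφ⟩ := ComplexEmbedding.exists_comp_symm_eq_of_comp_eq (k := K)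
    (Complex.ofRealHom.comp ι) g (by
      ext x
      change ((ι (algebraMap K H x) : ℝ) : ℂ) = g (algebraMap K H x)
      rw [hι, hg])
  set B : G := Art.symm φ.symm with hB
  have hArt : Art B = φ.symm := by rw [hB, MulEquiv.apply_symm_apply]
  refine ⟨Real.exp (-2 * z (A * B)), Real.exp_pos _, ?_⟩
  rw [← hφ, ← h.value (A * B), ← h.art A B, hArt]
  rfl

end Pool.Agent.H86.SQ
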