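import Pool.Agent.H86.SQ.Tools

/-!
# Quadratic extensions with one ramified prime
-/

set_option autoImplicit false
set_option linter.unusedSectionVars false

namespace Pool.Agent.H86.SQ

open IntermediateField NumberField IsDedekindDomain

variable {M L : Type} [Field M] [NumberField M] [Field L] [NumberField L] [Algebra M L]

/-- The norm of an element with even divisor has even divisor. -/
lemma norm_even_int (X : 𝓞 L) (hX : X ≠ 0)
    (hev : ∀ p : HeightOneSpectrum (𝓞 L), IsSquare (p.valuation L (X : L)))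
    (q : HeightOneSpectrum (𝓞 M)) : IsSquare (q.valuation M (Algebra.norm M (X : L))) := by
  classical
  have hX0 : (X : L) ≠ 0 := by exact_mod_cast hX
  obtain ⟨J, hJ⟩ := exists_sq_ideal (Ideal.span {X}) (by simpa using hX) (fun v => by
    obtain ⟨γ, hγ⟩ := hev v
    rw [HeightOneSpectrum.valuation_of_algebraMap, v.intValuation_if_neg hX] at hγ
    have hγ0 : γ ≠ 0 := by
      rintro rfl
      rw [mul_zero] at hγ
      exact WithZero.exp_ne_zero hγ
    rw [← WithZero.exp_log hγ0, ← WithZero.exp_add, WithZero.exp_inj] at hγ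
    have h2 : ((Associates.mk v.asIdeal).count (Associates.mk (Ideal.span {X})).factors : ℤ) =
        (-WithZero.log γ) + (-WithZero.log γ) := by linarith
    have h3 : Even ((Associates.mk v.asIdeal).count
        (Associates.mk (Ideal.span {X})).factors : ℤ) := ⟨_, h2⟩
    exact_mod_cast h3)
  have h1 : Ideal.relNorm (𝓞 M) (Ideal.span {X}) = (Ideal.relNorm (𝓞 M) J) ^ 2 := by
    rw [← hJ, map_pow]
  rw [Ideal.relNorm_singleton] at h1
  obtain ⟨n, hn⟩ : ∃ n : 𝓞 M, n = Algebra.intNorm (𝓞 M) (𝓞 L) X := ⟨_, rfl⟩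
  have hnM : algebraMap (𝓞 M) M n = Algebra.norm M (X : L) := by
    rw [hn]
    exact Algebra.algebraMap_intNorm (A := 𝓞 M) (K := M) (L := L) (B := 𝓞 L) X
  rw [← hn] at h1
  have hn0 : n ≠ 0 := by
    intro h0
    rw [h0, map_zero] at hnM
    exact (Algebra.norm_ne_zero_iff.2 hX0) hnM.symm
  have hI0 : Ideal.relNorm (𝓞 M) J ≠ 0 := by
    intro h0
    rw [h0, zero_pow two_ne_zero] at h1
    exact hn0 (by simpa using h1)
  rw [← hnM, HeightOneSpectrum.valuation_of_algebraMap, q.intValuation_if_neg hn0, h1,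
    Associates.mk_pow, Associates.count_pow (Associates.mk_ne_zero.2 hI0) q.associates_irreducible]
  refine ⟨WithZero.exp (-(((Associates.mk q.asIdeal).count
    (Associates.mk (Ideal.relNorm (𝓞 M) J)).factors : ℕ) : ℤ)), ?_⟩
  rw [← WithZero.exp_add]
  congr 1
  push_cast
  ring

lemma norm_even (x : L) (hx : x ≠ 0)
    (hev : ∀ p : HeightOneSpectrum (𝓞 L), IsSquare (p.valuation L x))
    (q : HeightOneSpectrum (𝓞 M)) : IsSquare (q.valuation M (Algebra.norm M x)) := by
  obtain ⟨a, b, hb, rfl⟩ := IsFractionRing.div_surjective (A := 𝓞 L) x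
  have hb0 : (b : L) ≠ 0 := by
    have := nonZeroDivisors.ne_zero hb
    exact_mod_cast this
  have ha0 : (a : L) ≠ 0 := by
    intro h0
    exact hx (by rw [show (algebraMap (𝓞 L) L) a = 0 from h0, zero_div])
  have h1 : (((a * b : 𝓞 L)) : L) = (a : L) / (b : L) * (b : L) ^ 2 := by
    rw [show ((a * b : 𝓞 L) : L) = (a : L) * (b : L) from map_mul (algebraMap (𝓞 L) L) a b]
    field_simp
  have h2 := norm_even_int (M := M) (a * b) (fun h0 => by
      rw [h0] at h1
      have h3 : (a : L) / (b : L) * (b : L) ^ 2 ≠ 0 := mul_ne_zero hx (pow_ne_zero _ hb0)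
      exact h3 (h1.symm.trans (map_zero (algebraMap (𝓞 L) L)))) (fun p => by
      rw [h1, map_mul, map_pow]
      exact (hev p).mul ⟨_, pow_two _⟩) q
  rw [h1, map_mul, map_pow, map_mul, map_pow] at h2
  obtain ⟨r, hr⟩ := h2
  have hn : q.valuation M (Algebra.norm M (b : L)) ≠ 0 :=
    (map_ne_zero _).2 (Algebra.norm_ne_zero_iff.2 hb0)
  refine ⟨r / q.valuation M (Algebra.norm M (b : L)), ?_⟩
  rw [div_mul_div_comm, ← hr]
  field_simp

/-- **The quadratic step.** If `L / M` is a quadratic extension in which all real embeddings extend to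
real embeddings and at most one prime of `M` is ramified, the narrow class number of `L` is odd if
the one of `M` is odd. -/
theorem evenSquares_quad [IsGalois M L] (hM : EvenSquares M)
    (hcard : Nat.card (L ≃ₐ[M] L) = 2)
    (hreal : ∀ f : M →+* ℝ, ∃ g : L →+* ℝ, ∀ x : M, g (algebraMap M L x) = f x)
    (hone : ∀ q q' : HeightOneSpectrum (𝓞 M), RamifiedIn L q → RamifiedIn L q' → q = q') :
    EvenSquares L := by
  classical
  have hfd : FiniteDimensional M L := Module.Finite.of_restrictScalars_finite ℚ M L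
  intro x hx hpos hev
  -- the non-trivial automorphism
  obtain ⟨σ, hσ1, hσ⟩ : ∃ σ : L ≃ₐ[M] L, σ ≠ 1 ∧ ∀ ρ : L ≃ₐ[M] L, ρ = 1 ∨ ρ = σ := by
    obtain ⟨a, b, hab, huniv⟩ := Nat.card_eq_two_iff.1 hcard
    have hmem : ∀ ρ : L ≃ₐ[M] L, ρ = a ∨ ρ = b := fun ρ => by
      have h1 : ρ ∈ ({a, b} : Set (L ≃ₐ[M] L)) := by rw [huniv]; trivial
      simpa using h1
    rcases hmem 1 with h1 | h1
    · exact ⟨b, fun h => hab (h1.symm.trans h.symm), fun ρ => by
        rcases hmem ρ with h | h
        · left; rw [h, h1]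
        · right; exact h⟩
    · exact ⟨a, fun h => hab (h.trans h1), fun ρ => by
        rcases hmem ρ with h | h
        · right; exact h
        · left; rw [h, h1]⟩
  have hfixed : ∀ y : L, σ y = y → ∃ m : M, algebraMap M L m = y := by
    intro y hy
    have : y ∈ Set.range (algebraMap M L) := by
      rw [IsGalois.mem_range_algebraMap_iff_fixed]
      intro ρ
      rcases hσ ρ with h | h
      · rw [h]; rfl
      · rw [h, hy]
    exact this
  have hσσ : ∀ y : L, σ (σ y) = y := by
    intro y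
    have h1 : σ * σ = 1 := by
      rcases hσ (σ * σ) with h | h
      · exact h
      · exfalso
        exact hσ1 (mul_left_cancel (h.trans (mul_one σ).symm))
    rw [← AlgEquiv.mul_apply, h1, AlgEquiv.one_apply]
  have hnorm : ∀ y : L, algebraMap M L (Algebra.norm M y) = y * σ y := by
    intro y
    rw [Algebra.norm_eq_prod_automorphisms]
    have h1 : (Finset.univ : Finset (L ≃ₐ[M] L)) = {1, σ} := by
      ext ρ
      simp only [Finset.mem_univ, Finset.mem_insert, Finset.mem_singleton, true_iff]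
      exact hσ ρ
    rw [h1, Finset.prod_pair (Ne.symm hσ1), AlgEquiv.one_apply]
  -- the norm is a square
  have hn0 : Algebra.norm M x ≠ 0 := Algebra.norm_ne_zero_iff.2 hx
  obtain ⟨z, hz⟩ := hM (Algebra.norm M x) hn0 (fun f => by
      obtain ⟨g, hg⟩ := hreal f
      rw [← hg, hnorm, map_mul]
      exact mul_pos (hpos g) (hpos (g.comp (σ : L →+* L)))) (norm_even x hx hev)
  -- the class comes from `M`
  obtain ⟨k, t, ht0, hkt⟩ : ∃ (k : M) (t : L), t ≠ 0 ∧ x * algebraMap M L k = t ^ 2 := by
    by_cases h0 : x + algebraMap M L z = 0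
    · refine ⟨-z, x, hx, ?_⟩
      have h1 : algebraMap M L (-z) = x := by
        rw [map_neg]; linear_combination -h0
      rw [h1]; ring
    · obtain ⟨m, hm⟩ := hfixed (x + σ x + 2 * algebraMap M L z) (by
        rw [map_add, map_add, hσσ, map_mul, AlgEquiv.commutes, map_ofNat]; ring)
      refine ⟨m, x + algebraMap M L z, h0, ?_⟩
      have h2 : x * σ x = algebraMap M L z * algebraMap M L z := by
        rw [← hnorm, hz, map_mul]
      rw [hm]
      linear_combination h2
  have hk0 : k ≠ 0 := by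
    rintro rfl
    rw [map_zero, mul_zero] at hkt
    exact (pow_ne_zero 2 ht0) hkt.symm
  have hkpos : ∀ f : M →+* ℝ, 0 < f k := by
    intro f
    obtain ⟨g, hg⟩ := hreal f
    have h1 : g x * f k = g t ^ 2 := by rw [← hg, ← map_mul, hkt, map_pow]
    have h2 := hpos g
    have h3 : g t ≠ 0 := (map_ne_zero g).2 ht0
    have h4 : 0 < g x * f k := by rw [h1]; positivity
    exact (mul_pos_iff_of_pos_left h2).1 h4
  have hkev : ∀ q : HeightOneSpectrum (𝓞 M), ¬ RamifiedIn L q → IsSquare (q.valuation M k) := by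
    intro q hq
    obtain ⟨Q, hQ⟩ := exists_valuation_eq (L := L) q hq
    have h1 : Q.valuation L x * Q.valuation L (algebraMap M L k) = Q.valuation L t ^ 2 := by
      rw [← map_mul, hkt, map_pow]
    obtain ⟨r, hr⟩ := hev Q
    have hr0 : r ≠ 0 := by
      rintro rfl
      rw [mul_zero] at hr
      exact hx ((map_eq_zero _).1 hr)
    refine ⟨Q.valuation L t / r, ?_⟩
    rw [hQ, div_mul_div_comm, ← pow_two, ← h1, hr]
    field_simp
  have hback : ∀ y : L, algebraMap M L k = y * y → IsSquare x := by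
    intro y hy
    have hy0 : y ≠ 0 := by
      rintro rfl
      rw [mul_zero] at hy
      exact hk0 ((map_eq_zero _).1 hy)
    refine ⟨t / y, ?_⟩
    rw [div_mul_div_comm, eq_div_iff (mul_ne_zero hy0 hy0), ← hy, hkt, pow_two]
  by_cases hall : ∀ q : HeightOneSpectrum (𝓞 M), IsSquare (q.valuation M k)
  · obtain ⟨y, hy⟩ := hM k hk0 hkpos hall
    exact hback (algebraMap M L y) (by rw [hy, map_mul])
  push Not at hall
  obtain ⟨q₀, hq₀⟩ := hall
  have hram : RamifiedIn L q₀ := by
    by_contra h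
    exact hq₀ (hkev q₀ h)
  obtain ⟨d, β, hβ0, hd, hdns⟩ := exists_delta (M := M) (L := L) (a := 0) (by rw [hcard]; rfl)
  have hd0 : d ≠ 0 := by
    rintro rfl
    rw [map_zero] at hd
    exact (pow_ne_zero 2 hβ0) hd.symm
  have hdpos : ∀ f : M →+* ℝ, 0 < f d := by
    intro f
    obtain ⟨g, hg⟩ := hreal f
    rw [← hg, hd, map_pow]
    have : g β ≠ 0 := (map_ne_zero g).2 hβ0
    positivity
  have hdev : ∀ q : HeightOneSpectrum (𝓞 M), ¬ RamifiedIn L q → IsSquare (q.valuation M d) := by
    intro q hq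
    obtain ⟨Q, hQ⟩ := exists_valuation_eq (L := L) q hq
    rw [hQ, hd, map_pow]
    exact ⟨_, pow_two _⟩
  have hdq : ¬ IsSquare (q₀.valuation M d) := by
    intro h
    refine hdns (hM d hd0 hdpos (fun q => ?_))
    by_cases hq : RamifiedIn L q
    · rw [hone q q₀ hq hram]; exact h
    · exact hdev q hq
  obtain ⟨n, hn⟩ := hM (k * d) (mul_ne_zero hk0 hd0) (fun f => by
      rw [map_mul]; exact mul_pos (hkpos f) (hdpos f)) (fun q => by
      rw [map_mul]
      by_cases hq : RamifiedIn L q
      · rw [hone q q₀ hq hram]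
        exact isSquare_mul_of_not ((map_ne_zero _).2 hk0) ((map_ne_zero _).2 hd0) hq₀ hdq
      · exact (hkev q hq).mul (hdev q hq))
  refine hback (algebraMap M L n / β) ?_
  rw [div_mul_div_comm, eq_div_iff (mul_ne_zero hβ0 hβ0), ← map_mul, ← hn, map_mul, hd, pow_two]

end Pool.Agent.H86.SQ
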