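import Pool.Agent.H86.SQ.Main

/-!
# The three theorems on square roots
-/

set_option autoImplicit false
set_option linter.unusedSectionVars false

namespace Pool.Agent.H86.SQ

open IntermediateField NumberField IsDedekindDomain

variable {K F H : Type} [Field K] [NumberField K] [Field F] [NumberField F] [Field H]
  [NumberField H] [Algebra K F] [Algebra F H] [Algebra K H] [IsScalarTower K F H]
  {σ₁ σ₂ : K →+* ℝ} {τ : H ≃ₐ[F] H}

/-- The conjugates of the unit. -/
noncomputable def conjUnit (φ : H ≃ₐ[K] H) (u : (𝓞 H)ˣ) : (𝓞 H)ˣ :=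
  Units.map (RingOfIntegers.mapRingHom (φ : H →+* H) : 𝓞 H →* 𝓞 H) u

lemma conjUnit_coe (φ : H ≃ₐ[K] H) (u : (𝓞 H)ˣ) :
    ((conjUnit φ u : 𝓞 H) : H) = φ ((u : 𝓞 H) : H) := rfl

/-- Integers of `F` which are totally positive with even divisor outside the ramified primes. -/
structure Nice (H : Type) [Field H] [NumberField H] [Algebra F H] (x : F) : Prop where
  int : ∃ X : 𝓞 F, (X : F) = x
  ne : x ≠ 0
  pos : ∀ f : F →+* ℝ, 0 < f x
  even : ∀ p : HeightOneSpectrum (𝓞 F), ¬ RamifiedIn H p → IsSquare (p.valuation F x)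

lemma nice_of (hS : Setting σ₁ σ₂ τ) (u : (𝓞 H)ˣ) (hu : Good σ₁ σ₂ ((u : 𝓞 H) : H)) (b : F)
    (hb : algebraMap F H b = 2 + ((u : 𝓞 H) : H) + ((u : 𝓞 H) : H)⁻¹) : Nice H b := by
  obtain ⟨B, hB⟩ := exists_integer hS u hu
  refine ⟨⟨B, ?_⟩, ne_zero_of hu hb, totally_positive hS hu b hb, even_valuation u b hb⟩
  exact FaithfulSMul.algebraMap_injective F H (hB.trans hb.symm)

lemma nice_conj [IsAbelianGalois K H] (hS : Setting σ₁ σ₂ τ) (u : (𝓞 H)ˣ)
    (hu : Good σ₁ σ₂ ((u : 𝓞 H) : H)) (b : F)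
    (hb : algebraMap F H b = 2 + ((u : 𝓞 H) : H) + ((u : 𝓞 H) : H)⁻¹) (σ : F ≃ₐ[K] F) :
    Nice H (σ b) := by
  have hFK : IsAbelianGalois K F := IsAbelianGalois.tower_bot K F H
  obtain ⟨φ, hφ⟩ := AlgEquiv.restrictNormalHom_surjective (F := K) (K₁ := F) H σ
  have h1 := conj_b (K := K) hb φ
  have h2 : φ.restrictNormal F = σ := hφ
  rw [h2] at h1
  exact nice_of hS (conjUnit φ u) (hu.map φ) (σ b) h1

lemma isSquare_mul_of_not {a b : WithZero (Multiplicative ℤ)} (ha : a ≠ 0) (hb : b ≠ 0)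
    (ha' : ¬ IsSquare a) (hb' : ¬ IsSquare b) : IsSquare (a * b) := by
  have key : ∀ c : WithZero (Multiplicative ℤ), c ≠ 0 → (IsSquare c ↔ Even (WithZero.log c)) := by
    intro c hc
    constructor
    · rintro ⟨d, rfl⟩
      have hd : d ≠ 0 := fun h => hc (by rw [h, mul_zero])
      exact ⟨WithZero.log d, WithZero.log_mul hd hd⟩
    · rintro ⟨n, hn⟩
      refine ⟨WithZero.exp n, ?_⟩
      rw [← WithZero.exp_add, ← hn, WithZero.exp_log hc]
  rw [key a ha] at ha'
  rw [key b hb] at hb'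
  rw [key _ (mul_ne_zero ha hb), WithZero.log_mul ha hb]
  rw [Int.not_even_iff_odd] at ha' hb'
  exact ha'.add_odd hb'

/-- The product of two nice elements with the same valuations at the ramified primes. -/
lemma nice_mul {x y : F} (hx : Nice H x) (hy : Nice H y)
    (hxy : ∀ p : HeightOneSpectrum (𝓞 F), RamifiedIn H p → p.valuation F y = p.valuation F x) :
    ∃ X : 𝓞 F, (X : F) = x * y ∧ X ≠ 0 ∧ (∀ f : F →+* ℝ, 0 < f (X : F)) ∧
      ∀ p : HeightOneSpectrum (𝓞 F), IsSquare (p.valuation F (X : F)) := by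
  obtain ⟨X, hX⟩ := hx.int
  obtain ⟨Y, hY⟩ := hy.int
  have h1 : ((X * Y : 𝓞 F) : F) = x * y := by
    rw [← hX, ← hY]; exact map_mul (algebraMap (𝓞 F) F) X Y
  refine ⟨X * Y, h1, ?_, ?_, ?_⟩
  · intro h0
    rw [h0] at h1
    exact mul_ne_zero hx.ne hy.ne (h1.symm.trans (map_zero (algebraMap (𝓞 F) F)))
  · intro f
    rw [h1, map_mul]
    exact mul_pos (hx.pos f) (hy.pos f)
  · intro p
    rw [h1, map_mul]
    by_cases hp : RamifiedIn H p
    · rw [hxy p hp]; exact ⟨_, rfl⟩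
    · exact (hx.even p hp).mul (hy.even p hp)

/-- **Theorem A.** -/
theorem abelian_A [IsAbelianGalois K H] (hS : Setting σ₁ σ₂ τ) (hN : EvenSquares F)
    (hR : ∀ p : HeightOneSpectrum (𝓞 F), RamifiedIn H p → ∀ (σ : F ≃ₐ[K] F) (x : F),
      p.valuation F (σ x) = p.valuation F x)
    (hc : ∃ σ₀ : F ≃ₐ[K] F, ∀ σ : F ≃ₐ[K] F, ∃ ρ, σ = ρ ^ 2 ∨ σ = σ₀ * ρ ^ 2)
    (u : (𝓞 H)ˣ) (hu : Good σ₁ σ₂ ((u : 𝓞 H) : H)) : AbelianRoot K ((u : 𝓞 H) : H) := by
  obtain ⟨b, hb⟩ := exists_F hS hu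
  refine abelianRoot_of hu hb (fun σ => ?_) (Or.inl hc)
  obtain ⟨X, hX, hX0, hpos, hv⟩ := nice_mul (nice_of hS u hu b hb) (nice_conj hS u hu b hb σ)
    (fun p hp => hR p hp σ b)
  rw [← hX]
  refine hN (X : F) ?_ hpos hv
  intro h0
  exact hX0 (RingOfIntegers.ext (h0.trans (map_zero (algebraMap (𝓞 F) F)).symm))

/-- In a group of odd order all elements are squares. -/
lemma square_of_odd {G : Type*} [Group G] [Finite G] (h : Odd (Nat.card G)) (g : G) :
    ∃ ρ, g = ρ ^ 2 := by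
  obtain ⟨m, hm⟩ := h
  refine ⟨g ^ (m + 1), ?_⟩
  have h1 : g ^ Nat.card G = 1 := pow_card_eq_one'
  rw [← pow_mul, show (m + 1) * 2 = Nat.card G + 1 by omega, pow_succ, h1, one_mul]

/-- **Theorem A'.** -/
theorem abelian_A' [IsAbelianGalois K H] (hS : Setting σ₁ σ₂ τ)
    (hodd : Odd (Module.finrank K F))
    (hV : ∀ X : 𝓞 F, X ≠ 0 → (∀ f : F →+* ℝ, 0 < f (X : F)) →
      (∀ p : HeightOneSpectrum (𝓞 F), IsSquare (p.valuation F (X : F))) →
      ∀ σ : F ≃ₐ[K] F, IsSquare ((X : F) * σ (X : F)))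
    (hR : ∀ p : HeightOneSpectrum (𝓞 F), RamifiedIn H p → ∀ (σ : F ≃ₐ[K] F) (x : F),
      p.valuation F (σ x) = p.valuation F x)
    (u : (𝓞 H)ˣ) (hu : Good σ₁ σ₂ ((u : 𝓞 H) : H)) : AbelianRoot K ((u : 𝓞 H) : H) := by
  have hFK : IsAbelianGalois K F := IsAbelianGalois.tower_bot K F H
  have : FiniteDimensional K F := Module.Finite.of_restrictScalars_finite ℚ K F
  have hcard : Odd (Nat.card (F ≃ₐ[K] F)) := by
    rw [IsGalois.card_aut_eq_finrank]; exact hodd
  obtain ⟨b, hb⟩ := exists_F hS hu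
  have hb0 := ne_zero_of hu hb
  refine abelianRoot_of hu hb (fun σ => ?_) (Or.inl ⟨1, fun σ => ?_⟩)
  · -- the product `b σ(b)` is a square
    obtain ⟨X, hX, hX0, hpos, hv⟩ := nice_mul (nice_of hS u hu b hb) (nice_conj hS u hu b hb σ)
      (fun p hp => hR p hp σ b)
    have hσb : σ b ≠ 0 := (map_ne_zero σ).2 hb0
    have hc0 : b * σ b ≠ 0 := mul_ne_zero hb0 hσb
    have hact : ∀ ρ : F ≃ₐ[K] F, IsSquare ((b * σ b) * ρ (b * σ b)) := by
      intro ρ
      rw [← hX]; exact hV X hX0 hpos hv ρ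
    have hind : ∀ j : ℕ, IsSquare ((b * (σ ^ j) b) * (b * σ b) ^ j) := by
      intro j
      induction j with
      | zero => exact ⟨b, by rw [pow_zero, pow_zero, AlgEquiv.one_apply]; ring⟩
      | succ j ih =>
        obtain ⟨d, hd⟩ := ih
        obtain ⟨e, he⟩ := hact (σ ^ j)
        have hj : (σ ^ j) b ≠ 0 := (map_ne_zero (σ ^ j)).2 hb0
        refine ⟨d * e / ((σ ^ j) b), ?_⟩
        have h1 : (σ ^ (j + 1)) b = (σ ^ j) (σ b) := by rw [pow_succ, AlgEquiv.mul_apply]
        rw [map_mul] at he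
        rw [h1, div_mul_div_comm, eq_div_iff (mul_ne_zero hj hj)]
        calc b * (σ ^ j) (σ b) * (b * σ b) ^ (j + 1) * ((σ ^ j) b * (σ ^ j) b)
            = (b * (σ ^ j) b * (b * σ b) ^ j) *
              (b * σ b * ((σ ^ j) b * (σ ^ j) (σ b))) := by ring
          _ = (d * d) * (e * e) := by rw [hd, he]
          _ = d * e * (d * e) := by ring
    obtain ⟨m, hm⟩ := hcard
    obtain ⟨d, hd⟩ := hind (Nat.card (F ≃ₐ[K] F))
    have h1 : σ ^ Nat.card (F ≃ₐ[K] F) = 1 := pow_card_eq_one'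
    rw [h1, AlgEquiv.one_apply, hm] at hd
    refine ⟨d / (b * (b * σ b) ^ m), ?_⟩
    have h2 : b * (b * σ b) ^ m ≠ 0 := mul_ne_zero hb0 (pow_ne_zero _ hc0)
    rw [div_mul_div_comm, eq_div_iff (mul_ne_zero h2 h2), ← hd]
    ring
  · obtain ⟨ρ, hρ⟩ := square_of_odd hcard σ
    exact ⟨ρ, Or.inl hρ⟩

/-- Multiplication with an element of the base makes a nice element even. -/
lemma exists_mult (hB : ∀ p : HeightOneSpectrum (𝓞 F), RamifiedIn H p → ∃ k : 𝓞 K, k ≠ 0 ∧
      (∀ f : K →+* ℝ, 0 < f (k : K)) ∧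
      ¬ IsSquare (p.valuation F (algebraMap K F (k : K))) ∧
      ∀ q : HeightOneSpectrum (𝓞 F), q ≠ p → IsSquare (q.valuation F (algebraMap K F (k : K))))
    (S : Finset (HeightOneSpectrum (𝓞 F))) :
    ∀ y : F, y ≠ 0 → (∀ p : HeightOneSpectrum (𝓞 F), ¬ IsSquare (p.valuation F y) →
      RamifiedIn H p ∧ p ∈ S) → ∃ k : 𝓞 K, k ≠ 0 ∧ (∀ f : K →+* ℝ, 0 < f (k : K)) ∧
      ∀ p : HeightOneSpectrum (𝓞 F), IsSquare (p.valuation F (y * algebraMap K F (k : K))) := by
  classical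
  induction S using Finset.induction_on with
  | empty =>
    intro y _ h
    refine ⟨1, one_ne_zero, fun f => by simp, fun p => ?_⟩
    by_contra hp
    simp only [map_one, mul_one] at hp
    exact absurd (h p hp).2 (Finset.notMem_empty p)
  | insert p S _ ih =>
    intro y hy h
    by_cases hp : IsSquare (p.valuation F y)
    · refine ih y hy (fun q hq => ⟨(h q hq).1, ?_⟩)
      rcases Finset.mem_insert.1 (h q hq).2 with rfl | h1
      · exact absurd hp hq
      · exact h1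
    · obtain ⟨k, hk0, hkpos, hkp, hkq⟩ := hB p (h p hp).1
      have hkF : algebraMap K F (k : K) ≠ 0 := by
        rw [map_ne_zero]
        exact_mod_cast hk0
      obtain ⟨l, hl0, hlpos, hl⟩ := ih (y * algebraMap K F (k : K)) (mul_ne_zero hy hkF)
        (fun q hq => by
          by_cases hqp : q = p
          · subst hqp
            exfalso
            apply hq
            rw [map_mul]
            exact isSquare_mul_of_not ((map_ne_zero _).2 hy) ((map_ne_zero _).2 hkF) hp hkp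
          · have hq' : ¬ IsSquare (q.valuation F y) := by
              intro h1
              apply hq
              rw [map_mul]
              exact h1.mul (hkq q hqp)
            refine ⟨(h q hq').1, ?_⟩
            rcases Finset.mem_insert.1 (h q hq').2 with h1 | h1
            · exact absurd h1 hqp
            · exact h1)
      refine ⟨k * l, mul_ne_zero hk0 hl0, fun f => ?_, fun q => ?_⟩
      · have h1 : ((k * l : 𝓞 K) : K) = (k : K) * (l : K) := map_mul (algebraMap (𝓞 K) K) k l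
        rw [h1, map_mul]; exact mul_pos (hkpos f) (hlpos f)
      · have h1 := hl q
        rw [mul_assoc, ← map_mul, ← map_mul] at h1
        exact h1

/-- **Theorem B.** -/
theorem abelian_B [IsAbelianGalois K H] (hS : Setting σ₁ σ₂ τ) (hN : EvenSquares F)
    (hB : ∀ p : HeightOneSpectrum (𝓞 F), RamifiedIn H p → ∃ k : 𝓞 K, k ≠ 0 ∧
      (∀ f : K →+* ℝ, 0 < f (k : K)) ∧
      ¬ IsSquare (p.valuation F (algebraMap K F (k : K))) ∧
      ∀ q : HeightOneSpectrum (𝓞 F), q ≠ p → IsSquare (q.valuation F (algebraMap K F (k : K))))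
    (u : (𝓞 H)ˣ) (hu : Good σ₁ σ₂ ((u : 𝓞 H) : H)) : AbelianRoot K ((u : 𝓞 H) : H) := by
  classical
  obtain ⟨b, hb⟩ := exists_F hS hu
  have hn := nice_of hS u hu b hb
  obtain ⟨B, hBb⟩ := hn.int
  have hB0 : B ≠ 0 := by
    rintro rfl
    exact hn.ne (hBb.symm.trans (map_zero (algebraMap (𝓞 F) F)))
  have hfin : {v : HeightOneSpectrum (𝓞 F) | v.asIdeal ∣ Ideal.span {B}}.Finite :=
    Ideal.finite_factors (by simpa using hB0)
  obtain ⟨k, hk0, hkpos, hk⟩ := exists_mult (K := K) (H := H) hB hfin.toFinset b hn.ne (fun p hp => by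
    constructor
    · by_contra h1
      exact hp (hn.even p h1)
    · rw [Set.Finite.mem_toFinset, Set.mem_ofPred_eq]
      by_contra h1
      apply hp
      rw [← hBb]
      have h2 : p.valuation F (B : F) = 1 := by
        refine le_antisymm (p.valuation_le_one B) ?_
        by_contra h3
        push Not at h3
        apply h1
        rwa [HeightOneSpectrum.valuation_lt_one_iff_dvd] at h3
      rw [h2]
      exact ⟨1, by rw [mul_one]⟩)
  have hkK : (k : K) ≠ 0 := by exact_mod_cast hk0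
  have hkF : algebraMap K F (k : K) ≠ 0 := (map_ne_zero _).2 hkK
  have hsqk : IsSquare (b * algebraMap K F (k : K)) :=
    hN _ (mul_ne_zero hn.ne hkF) (fun f => by
      rw [map_mul]
      exact mul_pos (hn.pos f) (hkpos (f.comp (algebraMap K F)))) hk
  refine abelianRoot_of hu hb (fun σ => ?_) (Or.inr ⟨(k : K), hkK, hsqk⟩)
  obtain ⟨c, hc⟩ := hsqk
  have h2 := congrArg σ hc
  rw [map_mul, map_mul, AlgEquiv.commutes] at h2
  refine ⟨c * σ c / algebraMap K F (k : K), ?_⟩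
  rw [div_mul_div_comm, eq_div_iff (mul_ne_zero hkF hkF)]
  calc b * σ b * (algebraMap K F (k : K) * algebraMap K F (k : K))
      = (b * algebraMap K F (k : K)) * (σ b * algebraMap K F (k : K)) := by ring
    _ = (c * c) * (σ c * σ c) := by rw [hc, h2]
    _ = c * σ c * (c * σ c) := by ring

end Pool.Agent.H86.SQ
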