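import Pool.Agent.H86.SQ.Thms

/-!
# Valuations at unramified primes, and square roots which belong to subgroups of index two
-/

set_option autoImplicit false
set_option linter.unusedSectionVars false

namespace Pool.Agent.H86.SQ

open IntermediateField NumberField IsDedekindDomain

variable {M L : Type} [Field M] [NumberField M] [Field L] [NumberField L] [Algebra M L]

/-- Comparison of the valuations at an unramified prime. -/
lemma exists_valuation_eq (q : HeightOneSpectrum (𝓞 M)) (hq : ¬ RamifiedIn L q) :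
    ∃ Q : HeightOneSpectrum (𝓞 L), ∀ x : M,
      q.valuation M x = Q.valuation L (algebraMap M L x) := by
  unfold RamifiedIn at hq
  push Not at hq
  obtain ⟨P, hP, hover, hnot⟩ := hq
  have hPbot : P ≠ ⊥ := by
    rintro rfl
    apply q.ne_bot
    rw [hover.over, Ideal.under_def]
    exact Ideal.comap_bot_of_injective _ (FaithfulSMul.algebraMap_injective (𝓞 M) (𝓞 L))
  let w : HeightOneSpectrum (𝓞 L) := ⟨P, hP, hPbot⟩
  have hw : w.asIdeal.LiesOver q.asIdeal := hover
  have he : q.asIdeal.ramificationIdx' w.asIdeal = 1 := by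
    refine Ideal.ramificationIdx'_spec ?_ hnot
    rw [pow_one, Ideal.map_le_iff_le_comap]
    exact hover.over.le
  refine ⟨w, fun x => ?_⟩
  have h1 := HeightOneSpectrum.valuation_liesOver (K := M) L q w x
  rw [he, pow_one] at h1
  exact h1

/-- Hilbert's theorem 90 in the form which is used. -/
lemma hilbert90 [FiniteDimensional M L] (y : (L ≃ₐ[M] L) → L) (hy0 : ∀ σ, y σ ≠ 0)
    (hy : ∀ σ τ, y (σ * τ) = σ (y τ) * y σ) : ∃ β : L, β ≠ 0 ∧ ∀ σ : L ≃ₐ[M] L, σ β = β * y σ := by
  let f : (L ≃ₐ[M] L) → Lˣ := fun σ => Units.mk0 (y σ) (hy0 σ)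
  have hf : groupCohomology.IsMulCocycle₁ f := by
    intro g h
    ext
    change y (g * h) = g (y h) * y g
    exact hy g h
  obtain ⟨β, hβ⟩ := groupCohomology.isMulCoboundary₁_of_isMulCocycle₁_of_aut_to_units f hf
  refine ⟨β, β.ne_zero, fun σ => ?_⟩
  have h1 := hβ σ
  rw [div_eq_iff_eq_mul] at h1
  have h2 := congrArg (fun u : Lˣ => (u : L)) h1
  change σ (β : L) = y σ * (β : L) at h2
  rw [h2, mul_comm]

/-- A primitive square root which comes from a subgroup of index two. -/
lemma exists_delta [IsGalois M L] [FiniteDimensional M L] {a : ℕ}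
    (hcard : Nat.card (L ≃ₐ[M] L) = 2 ^ (a + 1)) :
    ∃ (d : M) (β : L), β ≠ 0 ∧ algebraMap M L d = β ^ 2 ∧ ¬ IsSquare d := by
  classical
  have : Fact (Nat.Prime 2) := ⟨Nat.prime_two⟩
  obtain ⟨N, hN⟩ := Sylow.exists_subgroup_card_pow_prime (G := L ≃ₐ[M] L) 2 (n := a)
    (by rw [hcard]; exact pow_dvd_pow 2 (Nat.le_succ a))
  have hidx : N.index = 2 := by
    have h1 := N.card_mul_index
    rw [hN, hcard, pow_succ] at h1
    exact Nat.eq_of_mul_eq_mul_left (pow_pos (by norm_num) a) h1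
  let y : (L ≃ₐ[M] L) → L := fun σ => if σ ∈ N then 1 else -1
  obtain ⟨β, hβ0, hβ⟩ := hilbert90 y (fun σ => by
      simp only [y]; split_ifs <;> norm_num) (fun σ τ => by
      have h1 := Subgroup.mul_mem_iff_of_index_two hidx (a := σ) (b := τ)
      simp only [y]
      by_cases h2 : σ ∈ N <;> by_cases h3 : τ ∈ N <;> simp [h1, h2, h3])
  have hfix : β ^ 2 ∈ Set.range (algebraMap M L) := by
    rw [IsGalois.mem_range_algebraMap_iff_fixed]
    intro σ
    rw [map_pow, hβ, mul_pow]
    have : y σ ^ 2 = 1 := by simp only [y]; split_ifs <;> norm_num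
    rw [this, mul_one]
  obtain ⟨d, hd⟩ := hfix
  refine ⟨d, β, hβ0, hd, ?_⟩
  rintro ⟨n, hn⟩
  obtain ⟨σ, hσ⟩ : ∃ σ : L ≃ₐ[M] L, σ ∉ N := by
    by_contra hcon
    push Not at hcon
    have h1 : N = ⊤ := by
      rw [eq_top_iff]
      exact fun g _ => hcon g
    rw [h1, Subgroup.index_top] at hidx
    omega
  have h1 : (algebraMap M L n) ^ 2 = β ^ 2 := by rw [← hd, hn, map_mul, pow_two]
  have h2 : σ β = β := by
    rcases sq_eq_sq_iff_eq_or_eq_neg.1 h1 with h | h
    · rw [← h, AlgEquiv.commutes]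
    · have h3 : β = -(algebraMap M L n) := by rw [h, neg_neg]
      rw [h3, map_neg, AlgEquiv.commutes]
  rw [hβ] at h2
  have h3 : y σ = -1 := by simp [y, hσ]
  rw [h3] at h2
  have h4 : β = 0 := by linear_combination (-1 / 2 : L) * h2
  exact hβ0 h4

end Pool.Agent.H86.SQ
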