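import Pool.Agent.H86.SQ.OnePrime

/-!
# The tower theorem
-/

set_option autoImplicit false
set_option linter.unusedSectionVars false

namespace Pool.Agent.H86.SQ

open IntermediateField NumberField IsDedekindDomain

lemma rank_of_unique' {G : Type} [Group G] [Finite G] (hc : ∀ a b : G, a * b = b * a)
    (h : ∀ N₁ N₂ : Subgroup G, N₁.index = 2 → N₂.index = 2 → N₁ = N₂) :
    ∃ σ₀ : G, ∀ σ : G, ∃ ρ : G, σ = ρ ^ 2 ∨ σ = σ₀ * ρ ^ 2 := by
  let _ : CommGroup G := { (inferInstance : Group G) with mul_comm := hc }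
  exact rank_of_unique h

lemma rank_up {K M F : Type} [Field K] [Field M] [Field F] [Algebra K M] [Algebra M F]
    [Algebra K F] [IsScalarTower K M F] [FiniteDimensional K F] [IsAbelianGalois K F]
    (hodd : Odd (Module.finrank K M))
    (h : ∃ σ₀ : F ≃ₐ[M] F, ∀ σ : F ≃ₐ[M] F, ∃ ρ, σ = ρ ^ 2 ∨ σ = σ₀ * ρ ^ 2) :
    ∃ σ₀ : F ≃ₐ[K] F, ∀ σ : F ≃ₐ[K] F, ∃ ρ, σ = ρ ^ 2 ∨ σ = σ₀ * ρ ^ 2 := by
  have hMK : IsAbelianGalois K M := IsAbelianGalois.tower_bot K M F
  have hfd : FiniteDimensional K M := FiniteDimensional.left K M F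
  have hcomm : ∀ f g : F ≃ₐ[K] F, f * g = g * f := fun f g =>
    (IsMulCommutative.is_comm (M := F ≃ₐ[K] F)).comm f g
  have hC : ∀ a b : F ≃ₐ[K] F, Commute a b := hcomm
  obtain ⟨g, hg⟩ := h
  refine ⟨AlgEquiv.restrictScalarsHom K g, fun σ => ?_⟩
  set k := Module.finrank K M with hk
  have hfix : ∀ y : M, (σ ^ k) (algebraMap M F y) = algebraMap M F y := by
    intro y
    rw [← AlgEquiv.restrictNormal_commutes (σ ^ k) M y]
    have h1 : (σ ^ k).restrictNormal M = 1 := by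
      have h2 : AlgEquiv.restrictNormalHom M (σ ^ k) = 1 := by
        rw [map_pow, hk, ← IsGalois.card_aut_eq_finrank K M]
        exact pow_card_eq_one'
      exact h2
    rw [h1]; rfl
  let τ : F ≃ₐ[M] F := AlgEquiv.ofRingEquiv (f := ((σ ^ k : F ≃ₐ[K] F) : F ≃+* F)) hfix
  have hτ : AlgEquiv.restrictScalarsHom K τ = σ ^ k := by
    ext x; rfl
  obtain ⟨ρ, hρ⟩ := hg τ
  obtain ⟨m, hm⟩ := hodd
  have hσ : σ = σ ^ k * ((σ ^ m)⁻¹) ^ 2 := by
    rw [hm, inv_pow, ← pow_mul, mul_comm m 2, pow_succ' σ (2 * m), mul_assoc, mul_inv_cancel,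
      mul_one]
  refine ⟨AlgEquiv.restrictScalarsHom K ρ * (σ ^ m)⁻¹, ?_⟩
  rw [(hC _ _).mul_pow, ← map_pow]
  rcases hρ with h | h
  · left
    rw [← h, hτ]
    exact hσ
  · right
    rw [← mul_assoc, ← map_mul, ← h, hτ]
    exact hσ

variable {K F H : Type} [Field K] [NumberField K] [Field F] [NumberField F] [Field H]
  [NumberField H] [Algebra K F] [Algebra F H] [Algebra K H] [IsScalarTower K F H]
  {σ₁ σ₂ : K →+* ℝ} {τ : H ≃ₐ[F] H}

/-- The field `F` is totally real. -/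
lemma allReal (hS : Setting σ₁ σ₂ τ) : AllReal F := by
  intro φ
  let ψ : H →+* ℂ := ComplexEmbedding.lift H φ
  have hψ : ∀ y : F, ψ (algebraMap F H y) = φ y := fun y =>
    ComplexEmbedding.lift_algebraMap_apply _ _ y
  rw [ComplexEmbedding.isReal_iff]
  ext y
  change (starRingEnd ℂ) (φ y) = φ y
  rw [← hψ]
  rcases hS.cases ψ with h | h
  · exact hS.real ψ h _
  · rw [hS.conj ψ h, AlgEquiv.commutes]

/-- **Theorem T.** -/
theorem abelian_T [IsAbelianGalois K H] (hS : Setting σ₁ σ₂ τ) (M : Type) [Field M]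
    [NumberField M] [Algebra K M] [Algebra M F] [IsScalarTower K M F]
    (hodd : Odd (Module.finrank K M)) (hM : EvenSquares M) {a : ℕ}
    (hcard : Nat.card (F ≃ₐ[M] F) = 2 ^ a)
    (hone : ∀ Q Q' : HeightOneSpectrum (𝓞 F), RamifiedOver M Q → RamifiedOver M Q' → Q = Q')
    (hR : ∀ p : HeightOneSpectrum (𝓞 F), RamifiedIn H p → ∀ (σ : F ≃ₐ[K] F) (x : F),
      p.valuation F (σ x) = p.valuation F x)
    (u : (𝓞 H)ˣ) (hu : Good σ₁ σ₂ ((u : 𝓞 H) : H)) : AbelianRoot K ((u : 𝓞 H) : H) := by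
  have hFK : IsAbelianGalois K F := IsAbelianGalois.tower_bot K F H
  have hfd : FiniteDimensional K F := Module.Finite.of_restrictScalars_finite ℚ K F
  have hfd' : FiniteDimensional M F := Module.Finite.of_restrictScalars_finite ℚ M F
  have hFM : IsGalois M F := IsGalois.tower_top_of_isGalois K M F
  have hF := allReal hS
  have hE : EvenSquares F := evenSquares_tower a M F hM hcard hF hone
  have hcomm : ∀ f g : F ≃ₐ[M] F, f * g = g * f := by
    intro f g
    have h1 := (IsMulCommutative.is_comm (M := F ≃ₐ[K] F)).comm (AlgEquiv.restrictScalarsHom K f)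
      (AlgEquiv.restrictScalarsHom K g)
    ext x
    exact congrArg (fun e : F ≃ₐ[K] F => e x) h1
  exact abelian_A hS hE hR (rank_up hodd (rank_of_unique' hcomm
    (unique_index_two hM hF hone))) u hu

end Pool.Agent.H86.SQ
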